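import Mathlib

/-!
# Maximal boxes in an anti-blocking convex body: the contact relation
-/

set_option autoImplicit false

open Finset Filter Topology

namespace Pool.Agent.Shadow.Corner

variable {n : ℕ}

/-- Euclidean coordinates -/
abbrev V (n : ℕ) := Fin n → ℝ

/-- a compact convex down-closed set of nonnegative vectors -/
structure IsCorner (M : Set (V n)) : Prop where
  compact : IsCompact M
  convex : Convex ℝ M
  nonneg : ∀ x ∈ M, ∀ i, 0 ≤ x i
  down : ∀ x ∈ M, ∀ y : V n, (∀ i, 0 ≤ y i) → (∀ i, y i ≤ x i) → y ∈ M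

/-- `a` is the outer corner of the maximal box in `M` with inner corner `y` -/
def Rel (M : Set (V n)) (y a : V n) : Prop :=
  a ∈ M ∧ (∀ i, y i < a i) ∧ ∀ z ∈ M, ∑ i, (z i - a i) / (a i - y i) ≤ 0

lemma deriv_nonpos {g : ℝ → ℝ} {g' : ℝ} (hg : HasDerivAt g g' 0)
    (h : ∀ᶠ t in 𝓝[>] (0 : ℝ), g t ≤ g 0) : g' ≤ 0 := by
  have h1 := (hasDerivAt_iff_tendsto_slope_zero.1 hg)
  have h2 : Tendsto (fun t => t⁻¹ • (g (0 + t) - g 0)) (𝓝[>] (0 : ℝ)) (𝓝 g') :=
    h1.mono_left (nhdsWithin_mono _ (fun x hx => ne_of_gt hx))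
  refine le_of_tendsto h2 ?_
  filter_upwards [h, self_mem_nhdsWithin] with t ht ht0
  have ht0' : (0 : ℝ) < t := ht0
  rw [zero_add, smul_eq_mul]
  exact mul_nonpos_of_nonneg_of_nonpos (inv_nonneg.2 ht0'.le) (by linarith)

/-- a derivative computation -/
lemma hasDeriv_logsum (u c : V n) (hu : ∀ i, 0 < u i) :
    HasDerivAt (fun t : ℝ => ∑ i, Real.log (u i + t * c i)) (∑ i, c i / u i) 0 := by
  apply HasDerivAt.fun_sum
  intro i _
  have h1 : HasDerivAt (fun t : ℝ => u i + t * c i) (c i) 0 := by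
    have := ((hasDerivAt_id (0 : ℝ)).mul_const (c i)).const_add (u i)
    simpa using this
  have h2 := h1.log (by simpa using (hu i).ne')
  simpa using h2

lemma pos_small (u c : V n) (hu : ∀ i, 0 < u i) :
    ∀ᶠ t in 𝓝[>] (0 : ℝ), ∀ i, 0 < u i + t * c i := by
  rw [Filter.eventually_all]
  intro i
  have : Tendsto (fun t : ℝ => u i + t * c i) (𝓝[>] (0 : ℝ)) (𝓝 (u i + 0 * c i)) := by
    apply Tendsto.mono_left _ nhdsWithin_le_nhds
    exact (Continuous.tendsto (by fun_prop) 0)
  exact this.eventually (lt_mem_nhds (by simpa using hu i))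

/-- existence of the maximal box -/
lemma Rel.exists {M : Set (V n)} (hM : IsCorner M) {y z0 : V n} (hz : z0 ∈ M)
    (hyz : ∀ i, y i < z0 i) : ∃ a, Rel M y a ∧ ∏ i, (z0 i - y i) ≤ ∏ i, (a i - y i) := by
  classical
  set A : Set (V n) := M ∩ {z | ∀ i, y i ≤ z i} with hA
  have hAc : IsCompact A := by
    refine hM.compact.inter_right ?_
    have : {z : V n | ∀ i, y i ≤ z i} = ⋂ i, {z | y i ≤ z i} := by ext; simp
    rw [this]
    exact isClosed_iInter fun i => isClosed_le continuous_const (continuous_apply i)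
  have hcont : Continuous fun z : V n => ∏ i, (z i - y i) :=
    continuous_finset_prod _ fun i _ => (continuous_apply i).sub continuous_const
  obtain ⟨a, haA, hamax⟩ := hAc.exists_isMaxOn ⟨z0, hz, fun i => (hyz i).le⟩ hcont.continuousOn
  have hz0A : z0 ∈ A := ⟨hz, fun i => (hyz i).le⟩
  have hmax : ∏ i, (z0 i - y i) ≤ ∏ i, (a i - y i) := hamax hz0A
  have hpos0 : 0 < ∏ i, (z0 i - y i) := Finset.prod_pos fun i _ => by linarith [hyz i]
  have hposa : 0 < ∏ i, (a i - y i) := hpos0.trans_le hmax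
  have hya : ∀ i, y i < a i := by
    intro i
    have h1 : y i ≤ a i := haA.2 i
    rcases lt_or_eq_of_le h1 with h2 | h2
    · exact h2
    · exfalso
      have : ∏ j, (a j - y j) = 0 := Finset.prod_eq_zero (Finset.mem_univ i) (by linarith)
      linarith
  refine ⟨a, ⟨haA.1, hya, fun z hzM => ?_⟩, hmax⟩
  have hu : ∀ i, 0 < a i - y i := fun i => by linarith [hya i]
  set u : V n := fun i => a i - y i with hu'
  set c : V n := fun i => z i - a i with hc'
  have hder := hasDeriv_logsum u c hu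
  apply deriv_nonpos hder
  have hle1 : ∀ᶠ t in 𝓝[>] (0 : ℝ), t ≤ 1 := by
    filter_upwards [Ioc_mem_nhdsGT (show (0 : ℝ) < 1 by norm_num)] with t ht using ht.2
  filter_upwards [pos_small u c hu, self_mem_nhdsWithin, hle1] with t ht ht0 ht1
  have ht0' : (0 : ℝ) < t := ht0
  have hmem : (fun i => a i + t * (z i - a i)) ∈ M := by
    have := hM.convex haA.1 hzM (by linarith : (0 : ℝ) ≤ 1 - t) ht0'.le (by ring)
    convert this using 1
    funext i
    simp only [Pi.add_apply, Pi.smul_apply, smul_eq_mul]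
    ring
  have hmem2 : (fun i => a i + t * (z i - a i)) ∈ A := by
    refine ⟨hmem, fun i => ?_⟩
    have := ht i
    simp only [hu', hc'] at this
    show y i ≤ a i + t * (z i - a i)
    linarith
  have h3 : ∏ i, (a i + t * (z i - a i) - y i) ≤ ∏ i, (a i - y i) := hamax hmem2
  have h4 : ∀ i, 0 < u i + t * c i := ht
  show ∑ i, Real.log (u i + t * c i) ≤ ∑ i, Real.log (u i + 0 * c i)
  rw [← Real.log_prod (fun i _ => (h4 i).ne')]
  simp only [zero_mul, add_zero]
  rw [← Real.log_prod (fun i _ => (hu i).ne')]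
  apply Real.log_le_log (Finset.prod_pos fun i _ => h4 i)
  calc ∏ i, (u i + t * c i) = ∏ i, (a i + t * (z i - a i) - y i) := by
        apply Finset.prod_congr rfl; intro i _; simp only [hu', hc']; ring
    _ ≤ _ := h3

/-- monotonicity of the contact points -/
lemma Rel.mono {M : Set (V n)} {y a y' a' : V n} (h : Rel M y a) (h' : Rel M y' a') :
    ∑ i, (a' i - a i) ^ 2 / ((a i - y i) * (a' i - y' i)) ≤
      ∑ i, (y' i - y i) * (a' i - a i) / ((a i - y i) * (a' i - y' i)) := by
  obtain ⟨haM, hya, hz⟩ := h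
  obtain ⟨haM', hya', hz'⟩ := h'
  have h1 := hz a' haM'
  have h2 := hz' a haM
  have h3 : ∑ i, (a' i - a i) ^ 2 / ((a i - y i) * (a' i - y' i)) -
      ∑ i, (y' i - y i) * (a' i - a i) / ((a i - y i) * (a' i - y' i)) =
      ∑ i, (a' i - a i) / (a i - y i) + ∑ i, (a i - a' i) / (a' i - y' i) := by
    rw [← Finset.sum_sub_distrib, ← Finset.sum_add_distrib]
    apply Finset.sum_congr rfl
    intro i _
    have e1 : a i - y i ≠ 0 := by linarith [hya i]
    have e2 : a' i - y' i ≠ 0 := by linarith [hya' i]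
    field_simp
    ring
  linarith

lemma Rel.unique {M : Set (V n)} {y a a' : V n} (h : Rel M y a) (h' : Rel M y a') : a = a' := by
  have h1 := h.mono h'
  obtain ⟨haM, hya, hz⟩ := h
  obtain ⟨haM', hya', hz'⟩ := h'
  simp only [sub_self, zero_mul, zero_div, Finset.sum_const_zero] at h1
  have hnn : ∀ i ∈ Finset.univ, 0 ≤ (a' i - a i) ^ 2 / ((a i - y i) * (a' i - y i)) := by
    intro i _
    have e1 : 0 < a i - y i := by linarith [hya i]
    have e2 : 0 < a' i - y i := by linarith [hya' i]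
    positivity
  have h2 := (Finset.sum_eq_zero_iff_of_nonneg hnn).1 (le_antisymm h1 (Finset.sum_nonneg hnn))
  funext i
  have h3 := h2 i (Finset.mem_univ i)
  have e1 : a i - y i ≠ 0 := by linarith [hya i]
  have e2 : a' i - y i ≠ 0 := by linarith [hya' i]
  rw [div_eq_zero_iff] at h3
  rcases h3 with h3 | h3
  · have := pow_eq_zero_iff (two_ne_zero) |>.1 h3
    linarith
  · exact absurd h3 (mul_ne_zero e1 e2)

lemma Rel.prod_le {M : Set (V n)} (hM : IsCorner M) {y a z : V n} (h : Rel M y a) (hz : z ∈ M)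
    (hyz : ∀ i, y i < z i) : ∏ i, (z i - y i) ≤ ∏ i, (a i - y i) := by
  obtain ⟨a', ha', hle⟩ := Rel.exists hM hz hyz
  rw [h.unique ha']
  exact hle

/-- moving the inner corner towards the outer corner does not change the latter -/
lemma Rel.ray {M : Set (V n)} {y a : V n} (h : Rel M y a) {t : ℝ} (ht : t < 1) :
    Rel M (fun i => y i + t * (a i - y i)) a := by
  obtain ⟨haM, hya, hz⟩ := h
  refine ⟨haM, fun i => ?_, fun z hzM => ?_⟩
  · have := hya i
    nlinarith
  · have h1 := hz z hzM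
    have h2 : ∑ i, (z i - a i) / (a i - (y i + t * (a i - y i))) =
        (1 - t)⁻¹ * ∑ i, (z i - a i) / (a i - y i) := by
      rw [Finset.mul_sum]
      apply Finset.sum_congr rfl
      intro i _
      have e1 : a i - y i ≠ 0 := by linarith [hya i]
      have e2 : 1 - t ≠ 0 := by linarith
      have e3 : a i - (y i + t * (a i - y i)) = (1 - t) * (a i - y i) := by ring
      rw [e3]
      field_simp
    rw [h2]
    exact mul_nonpos_of_nonneg_of_nonpos (inv_nonneg.2 (by linarith)) h1

end Pool.Agent.Shadow.Corner
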