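import Mathlib

/-!
# A determinant bound
-/

set_option autoImplicit false

open Finset

namespace Pool.Agent.Shadow.Corner

variable {n : ℕ}

/-- Hadamard bound for a linear map of Euclidean space of norm at most `m` that changes the sign of
a nonzero vector -/
lemma det_bound_euclid (hn : 0 < n) (C : EuclideanSpace ℝ (Fin n) →ₗ[ℝ] EuclideanSpace ℝ (Fin n))
    {m : ℝ} (hm : 0 ≤ m) (hC : ∀ x, ‖C x‖ ≤ m * ‖x‖) (w : EuclideanSpace ℝ (Fin n)) (hw : w ≠ 0)
    (hCw : C w = -w) : |LinearMap.det C| ≤ m ^ (n - 1) := by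
  classical
  have : Fact (Module.finrank ℝ (EuclideanSpace ℝ (Fin n)) = n) :=
    ⟨by rw [finrank_euclideanSpace_fin]⟩
  set i0 : Fin n := ⟨0, hn⟩
  have hwn : ‖w‖ ≠ 0 := norm_ne_zero_iff.2 hw
  set v : Fin n → EuclideanSpace ℝ (Fin n) := fun _ => (‖w‖)⁻¹ • w
  have hv : Orthonormal ℝ (({i0} : Set (Fin n)).domRestrict v) := by
    constructor
    · intro i
      show ‖(‖w‖)⁻¹ • w‖ = 1
      rw [norm_smul, norm_inv, norm_norm, inv_mul_cancel₀ hwn]
    · intro i j hij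
      exact absurd (Subsingleton.elim i j) hij
  obtain ⟨b, hb⟩ := hv.exists_orthonormalBasis_extension_of_card_eq
    (by rw [finrank_euclideanSpace_fin, Fintype.card_fin])
  have hb0 : b i0 = (‖w‖)⁻¹ • w := hb i0 (Set.mem_singleton _)
  have h1 : LinearMap.det C = b.toBasis.det (C ∘ b.toBasis) := by
    rw [Module.Basis.det_comp, Module.Basis.det_self, mul_one]
  rw [h1, ← b.toBasis.orientation.volumeForm_robust' b]
  refine (b.toBasis.orientation.abs_volumeForm_apply_le _).trans ?_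
  have h2 : ∀ i, ‖(C ∘ b.toBasis) i‖ ≤ if i = i0 then 1 else m := by
    intro i
    split_ifs with hi
    · subst hi
      simp only [Function.comp_apply, OrthonormalBasis.coe_toBasis, hb0, map_smul, hCw]
      rw [norm_smul, norm_neg, norm_inv, norm_norm, inv_mul_cancel₀ hwn]
    · simp only [Function.comp_apply, OrthonormalBasis.coe_toBasis]
      refine (hC _).trans ?_
      rw [b.orthonormal.1 i, mul_one]
  refine (Finset.prod_le_prod (fun i _ => norm_nonneg _) fun i _ => h2 i).trans ?_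
  rw [Finset.prod_ite]
  simp only [Finset.prod_const_one, one_mul, Finset.prod_const]
  apply le_of_eq
  congr 1
  rw [Finset.filter_not, Finset.filter_eq' Finset.univ i0, if_pos (Finset.mem_univ _),
    Finset.card_sdiff_of_subset (Finset.subset_univ _), Finset.card_singleton, Finset.card_univ,
    Fintype.card_fin]

/-- weighted version in coordinates -/
lemma det_bound (hn : 0 < n) (C : (Fin n → ℝ) →ₗ[ℝ] (Fin n → ℝ)) (w : Fin n → ℝ)
    (hw : ∀ i, 0 < w i) {m : ℝ} (hm : 0 ≤ m)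
    (hC : ∀ h : Fin n → ℝ, ∑ i, (C h i / w i) ^ 2 ≤ m ^ 2 * ∑ i, (h i / w i) ^ 2)
    (hCw : C w = -w) : |LinearMap.det C| ≤ m ^ (n - 1) := by
  classical
  set Φ : EuclideanSpace ℝ (Fin n) ≃ₗ[ℝ] (Fin n → ℝ) :=
    (WithLp.linearEquiv 2 ℝ (Fin n → ℝ)).trans
      (LinearEquiv.piCongrRight fun i => LinearEquiv.smulOfNeZero ℝ ℝ (w i) (hw i).ne') with hΦ
  have hΦa : ∀ x i, Φ x i = w i * x i := by
    intro x i
    simp [hΦ]
  have hΦs : ∀ y i, (Φ.symm y) i = y i / w i := by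
    intro y i
    have := hΦa (Φ.symm y) i
    rw [LinearEquiv.apply_symm_apply] at this
    rw [this]
    field_simp [(hw i).ne']
  set C' : EuclideanSpace ℝ (Fin n) →ₗ[ℝ] EuclideanSpace ℝ (Fin n) :=
    (Φ.symm : _ →ₗ[ℝ] _) ∘ₗ C ∘ₗ (Φ.symm.symm : _ →ₗ[ℝ] _) with hC'
  have hdet : LinearMap.det C' = LinearMap.det C := LinearMap.det_conj C Φ.symm
  rw [← hdet]
  have hC'a : ∀ x, C' x = Φ.symm (C (Φ x)) := fun x => by simp [hC']
  have hone : Φ.symm w ≠ 0 := by
    intro h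
    have h1 := hΦs w ⟨0, hn⟩
    rw [h] at h1
    have h2 : w ⟨0, hn⟩ / w ⟨0, hn⟩ = 1 := div_self (hw _).ne'
    rw [h2] at h1
    simp at h1
  refine det_bound_euclid hn C' hm ?_ (Φ.symm w) hone ?_
  · intro x
    rw [← abs_of_nonneg (norm_nonneg (C' x)), ← abs_of_nonneg (mul_nonneg hm (norm_nonneg x)),
      ← sq_le_sq, mul_pow, EuclideanSpace.norm_sq_eq, EuclideanSpace.norm_sq_eq]
    have h1 := hC (Φ x)
    have h2 : ∑ i, (Φ x i / w i) ^ 2 = ∑ i, ‖x i‖ ^ 2 := by
      apply Finset.sum_congr rfl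
      intro i _
      rw [hΦa, mul_div_cancel_left₀ _ (hw i).ne', Real.norm_eq_abs, sq_abs]
    have h3 : ∑ i, ‖C' x i‖ ^ 2 = ∑ i, (C (Φ x) i / w i) ^ 2 := by
      apply Finset.sum_congr rfl
      intro i _
      rw [hC'a, hΦs, Real.norm_eq_abs, sq_abs]
    rw [h3, ← h2]
    exact h1
  · rw [hC'a, LinearEquiv.apply_symm_apply, hCw, map_neg]

end Pool.Agent.Shadow.Corner
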