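import Pool.Agent.Shadow.CornerA
import Pool.Agent.Shadow.CornerB

/-!
# The transport map of a corner body shrinks volume by the factor `n - 1`
-/

set_option autoImplicit false

open Finset Filter Topology MeasureTheory
open scoped ENNReal NNReal

namespace Pool.Agent.Shadow.Corner

variable {n : ℕ}

open Classical in
/-- the outer corner of the maximal box with inner corner `y` -/
noncomputable def outer (M : Set (V n)) (y : V n) : V n :=
  if h : ∃ a, Rel M y a then h.choose else 0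

lemma outer_eq {M : Set (V n)} {y a : V n} (h : Rel M y a) : outer M y = a := by
  have hex : ∃ a, Rel M y a := ⟨a, h⟩
  unfold outer
  rw [dif_pos hex]
  exact hex.choose_spec.unique h

/-- the transport map -/
noncomputable def trans (M : Set (V n)) (y : V n) : V n :=
  ((n : ℝ) - 1)⁻¹ • ((n : ℝ) • outer M y - y)

/-- the domain -/
def Dom (M : Set (V n)) (k : ℕ) : Set (V n) :=
  {y | (∀ i, 0 < y i) ∧ ∃ z ∈ M, (∀ i, y i < z i) ∧ ((k : ℝ) + 1)⁻¹ < ∏ i, (z i - y i)}

lemma Dom_open (M : Set (V n)) (k : ℕ) : IsOpen (Dom M k) := by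
  have : Dom M k = {y | ∀ i, 0 < y i} ∩
      ⋃ z ∈ M, ({y | ∀ i, y i < z i} ∩ {y | ((k : ℝ) + 1)⁻¹ < ∏ i, (z i - y i)}) := by
    ext y
    simp only [Dom, Set.mem_ofPred_eq, Set.mem_inter_iff, Set.mem_iUnion, exists_prop]
  rw [this]
  have h1 : IsOpen {y : V n | ∀ i, 0 < y i} := by
    have : {y : V n | ∀ i, 0 < y i} = ⋂ i, {y | 0 < y i} := by ext; simp
    rw [this]
    exact isOpen_iInter_of_finite fun i => isOpen_lt continuous_const (continuous_apply i)
  refine h1.inter (isOpen_biUnion fun z _ => ?_)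
  have h2 : IsOpen {y : V n | ∀ i, y i < z i} := by
    have : {y : V n | ∀ i, y i < z i} = ⋂ i, {y | y i < z i} := by ext; simp
    rw [this]
    exact isOpen_iInter_of_finite fun i => isOpen_lt (continuous_apply i) continuous_const
  refine h2.inter (isOpen_lt continuous_const ?_)
  exact continuous_finsetProd _ fun i _ => continuous_const.sub (continuous_apply i)

lemma Dom_mono (M : Set (V n)) {k l : ℕ} (h : k ≤ l) : Dom M k ⊆ Dom M l := by
  rintro y ⟨h1, z, hz, h2, h3⟩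
  refine ⟨h1, z, hz, h2, lt_of_le_of_lt ?_ h3⟩
  apply inv_anti₀ (by positivity)
  have : (k : ℝ) ≤ l := by exact_mod_cast h
  linarith

lemma Dom_subset {M : Set (V n)} (hM : IsCorner M) (k : ℕ) : Dom M k ⊆ M := by
  rintro y ⟨h1, z, hz, h2, -⟩
  exact hM.down z hz y (fun i => (h1 i).le) fun i => (h2 i).le

lemma Dom_rel {M : Set (V n)} (hM : IsCorner M) {k : ℕ} {y : V n} (hy : y ∈ Dom M k) :
    Rel M y (outer M y) ∧ ((k : ℝ) + 1)⁻¹ < ∏ i, (outer M y i - y i) := by
  obtain ⟨h1, z, hz, h2, h3⟩ := hy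
  obtain ⟨a, ha, hle⟩ := Rel.exists hM hz h2
  rw [outer_eq ha]
  exact ⟨ha, h3.trans_le hle⟩

lemma exists_bound {M : Set (V n)} (hM : IsCorner M) : ∃ D : ℝ, 1 ≤ D ∧ ∀ x ∈ M, ∀ i, x i ≤ D := by
  obtain ⟨R, hR⟩ := hM.compact.isBounded.exists_norm_le
  refine ⟨max R 1, le_max_right _ _, fun x hx i => ?_⟩
  calc x i ≤ |x i| := le_abs_self _
    _ = ‖x i‖ := rfl
    _ ≤ ‖x‖ := norm_le_pi_norm x i
    _ ≤ R := hR x hx
    _ ≤ _ := le_max_left _ _

/-- on the domain, the sides of the maximal box are bounded below -/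
lemma exists_lower {M : Set (V n)} (hM : IsCorner M) (k : ℕ) :
    ∃ c : ℝ, 0 < c ∧ ∀ y ∈ Dom M k, ∀ i, c ≤ outer M y i - y i := by
  classical
  obtain ⟨D, hD1, hD⟩ := exists_bound hM
  refine ⟨((k : ℝ) + 1)⁻¹ / D ^ (n - 1), by positivity, fun y hy i => ?_⟩
  obtain ⟨hr, hp⟩ := Dom_rel hM hy
  have hu : ∀ j, 0 < outer M y j - y j := fun j => by linarith [hr.2.1 j]
  have huD : ∀ j, outer M y j - y j ≤ D := fun j => by linarith [hD _ hr.1 j, hy.1 j]
  rw [← Finset.mul_prod_erase Finset.univ _ (Finset.mem_univ i)] at hp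
  have h1 : ∏ j ∈ Finset.univ.erase i, (outer M y j - y j) ≤ D ^ (n - 1) := by
    calc ∏ j ∈ Finset.univ.erase i, (outer M y j - y j) ≤ ∏ j ∈ Finset.univ.erase i, D :=
          Finset.prod_le_prod (fun j _ => (hu j).le) fun j _ => huD j
      _ = D ^ (n - 1) := by
          rw [Finset.prod_const, Finset.card_erase_of_mem (Finset.mem_univ i), Finset.card_univ,
            Fintype.card_fin]
  rw [div_le_iff₀ (by positivity)]
  calc ((k : ℝ) + 1)⁻¹ ≤ (outer M y i - y i) * ∏ j ∈ Finset.univ.erase i, (outer M y j - y j) :=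
        hp.le
    _ ≤ _ := mul_le_mul_of_nonneg_left h1 (hu i).le

lemma outer_lipschitz {M : Set (V n)} (hM : IsCorner M) (k : ℕ) :
    ∃ K : ℝ≥0, LipschitzOnWith K (outer M) (Dom M k) := by
  obtain ⟨D, hD1, hD⟩ := exists_bound hM
  obtain ⟨c, hc, hcl⟩ := exists_lower hM k
  have hD0 : 0 < D := by linarith
  refine ⟨Real.toNNReal (n * D ^ 2 / c ^ 2), ?_⟩
  apply LipschitzOnWith.of_dist_le_mul
  intro y' hy' y hy
  rw [dist_eq_norm, dist_eq_norm, Real.coe_toNNReal _ (by positivity)]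
  set a := outer M y
  set a' := outer M y'
  have hr := (Dom_rel hM hy).1
  have hr' := (Dom_rel hM hy').1
  have hmono := hr.mono hr'
  have hu : ∀ j, 0 < a j - y j := fun j => by linarith [hr.2.1 j]
  have hu' : ∀ j, 0 < a' j - y' j := fun j => by linarith [hr'.2.1 j]
  have huD : ∀ j, a j - y j ≤ D := fun j => by linarith [hD _ hr.1 j, hy.1 j]
  have huD' : ∀ j, a' j - y' j ≤ D := fun j => by linarith [hD _ hr'.1 j, hy'.1 j]
  have hc1 : ∀ j, c ≤ a j - y j := hcl y hy
  have hc2 : ∀ j, c ≤ a' j - y' j := hcl y' hy'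
  have hA : ∀ j, |a' j - a j| ≤ ‖a' - a‖ := fun j => norm_le_pi_norm (a' - a) j
  have hY : ∀ j, |y' j - y j| ≤ ‖y' - y‖ := fun j => norm_le_pi_norm (y' - y) j
  -- upper bound of the right side
  have h1 : ∑ i, (y' i - y i) * (a' i - a i) / ((a i - y i) * (a' i - y' i)) ≤
      n * (‖y' - y‖ * ‖a' - a‖ / c ^ 2) := by
    calc _ ≤ ∑ _i : Fin n, ‖y' - y‖ * ‖a' - a‖ / c ^ 2 := by
          apply Finset.sum_le_sum
          intro i _
          have hpos : 0 < (a i - y i) * (a' i - y' i) := mul_pos (hu i) (hu' i)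
          calc (y' i - y i) * (a' i - a i) / ((a i - y i) * (a' i - y' i)) ≤
                (‖y' - y‖ * ‖a' - a‖) / ((a i - y i) * (a' i - y' i)) := by
                apply div_le_div_of_nonneg_right _ hpos.le
                calc (y' i - y i) * (a' i - a i) ≤ |(y' i - y i) * (a' i - a i)| := le_abs_self _
                  _ = |y' i - y i| * |a' i - a i| := abs_mul _ _
                  _ ≤ _ := mul_le_mul (hY i) (hA i) (abs_nonneg _) (norm_nonneg _)
            _ ≤ _ := by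
                apply div_le_div_of_nonneg_left (by positivity) (by positivity)
                rw [pow_two]
                exact mul_le_mul (hc1 i) (hc2 i) hc.le (hu i).le
      _ = _ := by
          rw [Finset.sum_const, Finset.card_univ, Fintype.card_fin, nsmul_eq_mul]
  have h2 : ∀ j, (a' j - a j) ^ 2 ≤ D ^ 2 * (n * (‖y' - y‖ * ‖a' - a‖ / c ^ 2)) := by
    intro j
    have h3 : (a' j - a j) ^ 2 / D ^ 2 ≤
        ∑ i, (a' i - a i) ^ 2 / ((a i - y i) * (a' i - y' i)) := by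
      calc (a' j - a j) ^ 2 / D ^ 2 ≤ (a' j - a j) ^ 2 / ((a j - y j) * (a' j - y' j)) := by
            apply div_le_div_of_nonneg_left (sq_nonneg _) (mul_pos (hu j) (hu' j))
            rw [pow_two]
            exact mul_le_mul (huD j) (huD' j) (hu' j).le hD0.le
        _ ≤ _ := Finset.single_le_sum (f := fun i => (a' i - a i) ^ 2 /
              ((a i - y i) * (a' i - y' i))) (fun i _ => div_nonneg (sq_nonneg _)
              (mul_pos (hu i) (hu' i)).le) (Finset.mem_univ j)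
    have h4 := h3.trans (hmono.trans h1)
    rw [div_le_iff₀ (by positivity)] at h4
    linarith
  have h5 : ‖a' - a‖ ^ 2 ≤ D ^ 2 * (n * (‖y' - y‖ * ‖a' - a‖ / c ^ 2)) := by
    have h6 : ‖a' - a‖ ≤ Real.sqrt (D ^ 2 * (n * (‖y' - y‖ * ‖a' - a‖ / c ^ 2))) := by
      apply (pi_norm_le_iff_of_nonneg (Real.sqrt_nonneg _)).2
      intro j
      rw [Real.norm_eq_abs]
      exact Real.abs_le_sqrt (h2 j)
    calc ‖a' - a‖ ^ 2 ≤ (Real.sqrt (D ^ 2 * (n * (‖y' - y‖ * ‖a' - a‖ / c ^ 2)))) ^ 2 :=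
          pow_le_pow_left₀ (norm_nonneg _) h6 2
      _ = _ := Real.sq_sqrt (by positivity)
  rcases eq_or_lt_of_le (norm_nonneg (a' - a)) with h7 | h7
  · rw [← h7]; positivity
  · have h8 : ‖a' - a‖ * ‖a' - a‖ ≤ (n * D ^ 2 / c ^ 2 * ‖y' - y‖) * ‖a' - a‖ := by
      calc ‖a' - a‖ * ‖a' - a‖ = ‖a' - a‖ ^ 2 := by ring
        _ ≤ _ := h5
        _ = _ := by ring
    exact le_of_mul_le_mul_right h8 h7

end Pool.Agent.Shadow.Corner
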