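import Pool.Agent.Shadow.CornerC

/-!
# The derivative of the transport map
-/

set_option autoImplicit false

open Finset Filter Topology MeasureTheory
open scoped ENNReal NNReal

namespace Pool.Agent.Shadow.Corner

variable {n : ℕ}

/-- the derivative of the outer corner is firmly nonexpansive -/
lemma outer_deriv_firm {M : Set (V n)} (hM : IsCorner M) {k : ℕ} {y : V n} (hy : y ∈ Dom M k)
    {Λ : V n →L[ℝ] V n} (hΛ : HasFDerivAt (outer M) Λ y) (h : V n) :
    ∑ i, (Λ h i / (outer M y i - y i)) ^ 2 ≤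
      ∑ i, (h i / (outer M y i - y i)) * (Λ h i / (outer M y i - y i)) := by
  set a := outer M y with ha
  have hr := (Dom_rel hM hy).1
  have hu : ∀ j, 0 < a j - y j := fun j => by linarith [hr.2.1 j]
  -- the path
  set f : ℝ → V n := fun t => outer M (y + t • h) with hf
  have hf0 : f 0 = a := by simp [hf, ha]
  have hder : HasDerivAt f (Λ h) 0 := by
    have h1 : HasDerivAt (fun t : ℝ => y + t • h) h 0 := by
      have := ((hasDerivAt_id (0 : ℝ)).smul_const h).const_add y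
      simpa using this
    have h2 : HasFDerivAt (outer M) Λ (y + (0 : ℝ) • h) := by simpa using hΛ
    exact h2.comp_hasDerivAt (0 : ℝ) h1
  have hcoord : ∀ i, HasDerivAt (fun t => f t i) (Λ h i) 0 := fun i => hasDerivAt_pi.1 hder i
  have hslope : ∀ i, Tendsto (fun t => t⁻¹ * (f t i - a i)) (𝓝[≠] (0 : ℝ)) (𝓝 (Λ h i)) := by
    intro i
    have h1 := hasDerivAt_iff_tendsto_slope_zero.1 (hcoord i)
    refine h1.congr fun t => ?_
    rw [zero_add, smul_eq_mul, hf0]
  have hlim : ∀ i, Tendsto (fun t => f t i - (y i + t * h i)) (𝓝[≠] (0 : ℝ)) (𝓝 (a i - y i)) := by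
    intro i
    have h1 : Tendsto (fun t => f t i) (𝓝 (0 : ℝ)) (𝓝 (f 0 i)) := (hcoord i).continuousAt
    rw [hf0] at h1
    have h2 : Tendsto (fun t : ℝ => y i + t * h i) (𝓝 (0 : ℝ)) (𝓝 (y i + 0 * h i)) :=
      Continuous.tendsto (by fun_prop) 0
    rw [zero_mul, add_zero] at h2
    exact (h1.sub h2).mono_left nhdsWithin_le_nhds
  have hev : ∀ᶠ t in 𝓝[≠] (0 : ℝ), y + t • h ∈ Dom M k := by
    have h1 : Tendsto (fun t : ℝ => y + t • h) (𝓝 (0 : ℝ)) (𝓝 (y + (0 : ℝ) • h)) :=
      Continuous.tendsto (by fun_prop) 0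
    rw [zero_smul, add_zero] at h1
    exact (h1.eventually ((Dom_open M k).mem_nhds hy)).filter_mono nhdsWithin_le_nhds
  have hL : Tendsto (fun t => ∑ i, (t⁻¹ * (f t i - a i)) ^ 2 /
      ((a i - y i) * (f t i - (y i + t * h i)))) (𝓝[≠] (0 : ℝ))
      (𝓝 (∑ i, (Λ h i) ^ 2 / ((a i - y i) * (a i - y i)))) := by
    apply tendsto_finsetSum
    intro i _
    apply Tendsto.div ((hslope i).pow 2) ((hlim i).const_mul _)
    exact mul_ne_zero (hu i).ne' (hu i).ne'
  have hR : Tendsto (fun t => ∑ i, h i * (t⁻¹ * (f t i - a i)) /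
      ((a i - y i) * (f t i - (y i + t * h i)))) (𝓝[≠] (0 : ℝ))
      (𝓝 (∑ i, h i * (Λ h i) / ((a i - y i) * (a i - y i)))) := by
    apply tendsto_finsetSum
    intro i _
    apply Tendsto.div ((hslope i).const_mul _) ((hlim i).const_mul _)
    exact mul_ne_zero (hu i).ne' (hu i).ne'
  have hle := le_of_tendsto_of_tendsto hL hR ?_
  · calc ∑ i, (Λ h i / (a i - y i)) ^ 2 = ∑ i, (Λ h i) ^ 2 / ((a i - y i) * (a i - y i)) := by
          apply Finset.sum_congr rfl; intro i _; rw [div_pow, pow_two (a i - y i)]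
      _ ≤ _ := hle
      _ = _ := by
          apply Finset.sum_congr rfl; intro i _; rw [div_mul_div_comm]
  · filter_upwards [hev, self_mem_nhdsWithin] with t ht ht0
    have ht0' : t ≠ 0 := ht0
    have hr' := (Dom_rel hM ht).1
    have hm := hr.mono hr'
    have e1 : ∀ i, (y + t • h) i = y i + t * h i := fun i => by simp
    have e2 : outer M (y + t • h) = f t := rfl
    rw [e2] at hm hr'
    simp only [e1] at hm
    have hpos : 0 < t⁻¹ ^ 2 := by positivity
    have h3 := mul_le_mul_of_nonneg_left hm hpos.le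
    rw [Finset.mul_sum, Finset.mul_sum] at h3
    calc ∑ i, (t⁻¹ * (f t i - a i)) ^ 2 / ((a i - y i) * (f t i - (y i + t * h i))) =
          ∑ i, t⁻¹ ^ 2 * ((f t i - a i) ^ 2 / ((a i - y i) * (f t i - (y i + t * h i)))) := by
          apply Finset.sum_congr rfl; intro i _; rw [mul_pow, mul_div_assoc]
      _ ≤ _ := h3
      _ = ∑ i, h i * (t⁻¹ * (f t i - a i)) / ((a i - y i) * (f t i - (y i + t * h i))) := by
          apply Finset.sum_congr rfl; intro i _
          rw [← mul_div_assoc]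
          congr 1
          field_simp
          ring

lemma outer_deriv_ray {M : Set (V n)} (hM : IsCorner M) {k : ℕ} {y : V n} (hy : y ∈ Dom M k)
    {Λ : V n →L[ℝ] V n} (hΛ : HasFDerivAt (outer M) Λ y) : Λ (outer M y - y) = 0 := by
  set a := outer M y with ha
  have hr := (Dom_rel hM hy).1
  have h1 : HasDerivAt (fun t : ℝ => y + t • (a - y)) (a - y) 0 := by
    have := ((hasDerivAt_id (0 : ℝ)).smul_const (a - y)).const_add y
    simpa using this
  have h2 : HasFDerivAt (outer M) Λ (y + (0 : ℝ) • (a - y)) := by simpa using hΛ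
  have h3 : HasDerivAt (outer M ∘ fun t : ℝ => y + t • (a - y)) (Λ (a - y)) 0 :=
    HasFDerivAt.comp_hasDerivAt (0 : ℝ) h2 h1
  have h4 : (fun t : ℝ => outer M (y + t • (a - y))) =ᶠ[𝓝 (0 : ℝ)] fun _ => a := by
    filter_upwards [gt_mem_nhds (show (0 : ℝ) < 1 by norm_num)] with t ht
    have := outer_eq (hr.ray ht)
    exact this
  have h5 : HasDerivAt (fun t : ℝ => outer M (y + t • (a - y))) 0 0 :=
    (hasDerivAt_const (0 : ℝ) a).congr_of_eventuallyEq h4
  exact h3.unique h5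

/-- the Jacobian bound -/
lemma trans_det {M : Set (V n)} (hM : IsCorner M) (hn : 2 ≤ n) {k : ℕ} {y : V n}
    (hy : y ∈ Dom M k) {Λ : V n →L[ℝ] V n} (hΛ : HasFDerivAt (outer M) Λ y) :
    ∃ T : V n →L[ℝ] V n, HasFDerivAt (trans M) T y ∧ |T.det| ≤ ((n : ℝ) - 1)⁻¹ := by
  have hn1 : (0 : ℝ) < (n : ℝ) - 1 := by
    have : (2 : ℝ) ≤ n := by exact_mod_cast hn
    linarith
  set a := outer M y with ha
  have hr := (Dom_rel hM hy).1
  have hu : ∀ j, 0 < a j - y j := fun j => by linarith [hr.2.1 j]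
  set C : V n →L[ℝ] V n := (n : ℝ) • Λ - ContinuousLinearMap.id ℝ (V n) with hC
  refine ⟨((n : ℝ) - 1)⁻¹ • C, ?_, ?_⟩
  · have e1 : HasFDerivAt (fun y : V n => (n : ℝ) • outer M y - y) C y :=
      HasFDerivAt.sub (HasFDerivAt.const_smul (R := ℝ) hΛ (n : ℝ)) (hasFDerivAt_id y)
    exact HasFDerivAt.const_smul (R := ℝ) e1 (((n : ℝ) - 1)⁻¹)
  have hCdet : |LinearMap.det (C : V n →ₗ[ℝ] V n)| ≤ ((n : ℝ) - 1) ^ (n - 1) := by
    refine det_bound (by omega) (C : V n →ₗ[ℝ] V n) (fun i => a i - y i) hu hn1.le ?_ ?_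
    · intro h
      have h1 := outer_deriv_firm hM hy hΛ h
      rw [← ha] at h1
      set P := ∑ i, (Λ h i / (a i - y i)) ^ 2 with hP
      set Q := ∑ i, (h i / (a i - y i)) * (Λ h i / (a i - y i)) with hQ
      set R := ∑ i, (h i / (a i - y i)) ^ 2 with hR
      have h2 : ∑ i, ((C : V n →ₗ[ℝ] V n) h i / (a i - y i)) ^ 2 =
          (n : ℝ) ^ 2 * P - 2 * n * Q + R := by
        rw [hP, hQ, hR, Finset.mul_sum, Finset.mul_sum, ← Finset.sum_sub_distrib,
          ← Finset.sum_add_distrib]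
        apply Finset.sum_congr rfl
        intro i _
        have e : (C : V n →ₗ[ℝ] V n) h i = n * Λ h i - h i := by
          simp [hC]
        rw [e]
        ring
      have h3 : 2 * Q ≤ P + R := by
        rw [hP, hQ, hR, Finset.mul_sum, ← Finset.sum_add_distrib]
        apply Finset.sum_le_sum
        intro i _
        nlinarith [sq_nonneg (Λ h i / (a i - y i) - h i / (a i - y i))]
      have h4 : P ≤ R := by linarith
      have h5 : (2 : ℝ) ≤ n := by exact_mod_cast hn
      rw [h2]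
      nlinarith [mul_nonneg (mul_nonneg (by linarith : (0 : ℝ) ≤ n) (by linarith :
        (0 : ℝ) ≤ (n : ℝ) - 2)) (by linarith : 0 ≤ R - P),
        mul_nonneg (by linarith : (0 : ℝ) ≤ 2 * n) (by linarith : 0 ≤ Q - P)]
    · have h1 := outer_deriv_ray hM hy hΛ
      rw [← ha] at h1
      have e : (fun i => a i - y i) = a - y := rfl
      rw [e]
      show (n : ℝ) • Λ (a - y) - (a - y) = -(a - y)
      rw [h1, smul_zero, zero_sub]
  have hdet : (((n : ℝ) - 1)⁻¹ • C).det = (((n : ℝ) - 1)⁻¹) ^ n *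
      LinearMap.det (C : V n →ₗ[ℝ] V n) := by
    rw [ContinuousLinearMap.det, ContinuousLinearMap.toLinearMap_smul, LinearMap.det_smul,
      Module.finrank_fin_fun]
  rw [hdet, abs_mul, abs_of_nonneg (by positivity)]
  calc (((n : ℝ) - 1)⁻¹) ^ n * |LinearMap.det (C : V n →ₗ[ℝ] V n)| ≤
        (((n : ℝ) - 1)⁻¹) ^ n * ((n : ℝ) - 1) ^ (n - 1) :=
        mul_le_mul_of_nonneg_left hCdet (by positivity)
    _ = ((n : ℝ) - 1)⁻¹ := by
        obtain ⟨m, rfl⟩ : ∃ m, n = m + 1 := ⟨n - 1, by omega⟩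
        rw [Nat.add_sub_cancel, pow_succ, mul_comm (((↑(m + 1) : ℝ) - 1)⁻¹ ^ m), mul_assoc,
          ← mul_pow, inv_mul_cancel₀ hn1.ne', one_pow, mul_one]

end Pool.Agent.Shadow.Corner
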