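import Pool.Agent.Shadow.CornerD

/-!
# The volume of the image of the transport map
-/

set_option autoImplicit false

open Finset Filter Topology MeasureTheory
open scoped ENNReal NNReal

namespace Pool.Agent.Shadow.Corner

variable {n : ℕ}

lemma trans_lipschitz {M : Set (V n)} (hM : IsCorner M) (k : ℕ) :
    ∃ K : ℝ≥0, LipschitzOnWith K (trans M) (Dom M k) := by
  obtain ⟨K, hK⟩ := outer_lipschitz hM k
  refine ⟨‖((n : ℝ) - 1)⁻¹‖₊ * (‖(n : ℝ)‖₊ * K + 1), ?_⟩
  apply LipschitzOnWith.of_dist_le_mul
  intro x hx y hy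
  have h1 := hK.dist_le_mul x hx y hy
  rw [dist_eq_norm, dist_eq_norm] at h1 ⊢
  unfold trans
  rw [← smul_sub, norm_smul]
  push_cast
  rw [mul_assoc]
  apply mul_le_mul_of_nonneg_left _ (norm_nonneg _)
  calc ‖(n : ℝ) • outer M x - x - ((n : ℝ) • outer M y - y)‖ =
        ‖(n : ℝ) • (outer M x - outer M y) - (x - y)‖ := by
        congr 1; rw [smul_sub]; abel
    _ ≤ ‖(n : ℝ) • (outer M x - outer M y)‖ + ‖x - y‖ := norm_sub_le _ _
    _ ≤ ‖(n : ℝ)‖ * (K * ‖x - y‖) + ‖x - y‖ := by
        rw [norm_smul]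
        have := mul_le_mul_of_nonneg_left h1 (norm_nonneg (n : ℝ))
        linarith
    _ = _ := by ring

/-- Lipschitz images of null sets are null sets -/
lemma null_image {K : ℝ≥0} {f : V n → V n} {s : Set (V n)} (hf : LipschitzOnWith K f s)
    {t : Set (V n)} (ht : t ⊆ s) (h0 : volume t = 0) : volume (f '' t) = 0 := by
  have h1 := (hf.mono ht).hausdorffMeasure_image_le (d := (Fintype.card (Fin n) : ℝ))
    (by positivity)
  rw [hausdorffMeasure_pi_real] at h1
  rw [h0, mul_zero] at h1
  exact le_antisymm h1 zero_le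

lemma trans_volume {M : Set (V n)} (hM : IsCorner M) (hn : 2 ≤ n) (k : ℕ) :
    volume (trans M '' Dom M k) ≤ ENNReal.ofReal (((n : ℝ) - 1)⁻¹) * volume (Dom M k) := by
  classical
  obtain ⟨K, hK⟩ := trans_lipschitz hM k
  obtain ⟨K', hK'⟩ := outer_lipschitz hM k
  have hae := hK'.ae_differentiableWithinAt_of_mem (μ := volume)
  set N : Set (V n) := toMeasurable volume {x | ¬ (x ∈ Dom M k → DifferentiableWithinAt ℝ (outer M)
    (Dom M k) x)} with hN
  have hN0 : volume N = 0 := by rw [hN, measure_toMeasurable]; exact hae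
  have hNm : MeasurableSet N := measurableSet_toMeasurable _ _
  set s : Set (V n) := Dom M k \ N with hs
  have hsm : MeasurableSet s := (Dom_open M k).measurableSet.diff hNm
  have hdiff : ∀ x ∈ s, ∃ T : V n →L[ℝ] V n, HasFDerivAt (trans M) T x ∧
      |T.det| ≤ ((n : ℝ) - 1)⁻¹ := by
    rintro x ⟨hx, hxN⟩
    have h1 : DifferentiableWithinAt ℝ (outer M) (Dom M k) x := by
      by_contra hcon
      apply hxN
      apply subset_toMeasurable
      intro himp
      exact hcon (himp hx)
    have h2 : DifferentiableAt ℝ (outer M) x :=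
      h1.differentiableAt ((Dom_open M k).mem_nhds hx)
    exact trans_det hM hn hx h2.hasFDerivAt
  choose! T hT using hdiff
  have h1 : volume (trans M '' s) ≤ ∫⁻ x in s, ENNReal.ofReal |(T x).det| := by
    apply addHaar_image_le_lintegral_abs_det_fderiv volume hsm
    intro x hx
    exact (hT x hx).1.hasFDerivWithinAt
  have h2 : ∫⁻ x in s, ENNReal.ofReal |(T x).det| ≤
      ENNReal.ofReal (((n : ℝ) - 1)⁻¹) * volume s := by
    rw [← setLIntegral_const]
    apply setLIntegral_mono measurable_const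
    intro x hx
    exact ENNReal.ofReal_le_ofReal (hT x hx).2
  have h3 : trans M '' Dom M k ⊆ trans M '' s ∪ trans M '' (Dom M k ∩ N) := by
    rw [← Set.image_union]
    apply Set.image_mono
    intro x hx
    by_cases hxN : x ∈ N
    · exact Or.inr ⟨hx, hxN⟩
    · exact Or.inl ⟨hx, hxN⟩
  have h4 : volume (trans M '' (Dom M k ∩ N)) = 0 :=
    null_image hK Set.inter_subset_left (measure_mono_null Set.inter_subset_right hN0)
  calc volume (trans M '' Dom M k) ≤ volume (trans M '' s ∪ trans M '' (Dom M k ∩ N)) :=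
        measure_mono h3
    _ ≤ volume (trans M '' s) + volume (trans M '' (Dom M k ∩ N)) := measure_union_le _ _
    _ = volume (trans M '' s) := by rw [h4, add_zero]
    _ ≤ ENNReal.ofReal (((n : ℝ) - 1)⁻¹) * volume s := h1.trans h2
    _ ≤ _ := by gcongr; exact Set.sdiff_subset

/-- the whole image has at most `1 / (n - 1)` times the volume of the body -/
lemma trans_union_volume {M : Set (V n)} (hM : IsCorner M) (hn : 2 ≤ n) :
    volume (⋃ k, trans M '' Dom M k) ≤ ENNReal.ofReal (((n : ℝ) - 1)⁻¹) * volume M := by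
  have hmono : Monotone fun k => trans M '' Dom M k :=
    fun k l h => Set.image_mono (Dom_mono M h)
  rw [hmono.measure_iUnion]
  refine iSup_le fun k => (trans_volume hM hn k).trans ?_
  gcongr
  exact Dom_subset hM k

end Pool.Agent.Shadow.Corner
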