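import Pool.Agent.Shadow.CornerE

/-!
# Every point of the cylinder hull is reached by the transport map
-/

set_option autoImplicit false

open Finset Filter Topology MeasureTheory
open scoped ENNReal NNReal

namespace Pool.Agent.Shadow.Corner

variable {n : ℕ}

/-- linear functional with coefficient vector `p` -/
def dotp (p x : V n) : ℝ := ∑ i, p i * x i

lemma dotp_cont2 : Continuous fun q : V n × V n => dotp q.1 q.2 := by
  unfold dotp
  exact continuous_finsetSum _ fun i _ =>
    ((continuous_apply i).comp continuous_fst).mul ((continuous_apply i).comp continuous_snd)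

/-- support function -/
noncomputable def supp (M : Set (V n)) (p : V n) : ℝ := sSup (dotp p '' M)

lemma supp_cont {M : Set (V n)} (hM : IsCorner M) : Continuous (supp M) :=
  hM.compact.continuous_sSup dotp_cont2

lemma supp_bdd {M : Set (V n)} (hM : IsCorner M) (p : V n) : BddAbove (dotp p '' M) := by
  refine (hM.compact.image ?_).bddAbove
  exact dotp_cont2.comp (Continuous.prodMk continuous_const continuous_id)

lemma le_supp {M : Set (V n)} (hM : IsCorner M) (p : V n) {z : V n} (hz : z ∈ M) :
    dotp p z ≤ supp M p := le_csSup (supp_bdd hM p) ⟨z, hz, rfl⟩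

lemma supp_le {M : Set (V n)} (hne : M.Nonempty) {p : V n} {c : ℝ} (h : ∀ z ∈ M, dotp p z ≤ c) :
    supp M p ≤ c := by
  apply csSup_le (hne.image _)
  rintro _ ⟨z, hz, rfl⟩
  exact h z hz

lemma supp_smul {M : Set (V n)} (hM : IsCorner M) (hne : M.Nonempty) {p : V n} {t : ℝ}
    (ht : 0 < t) : supp M (t • p) = t * supp M p := by
  have e : ∀ q z : V n, ∀ s : ℝ, dotp (s • q) z = s * dotp q z := by
    intro q z s
    simp only [dotp, Pi.smul_apply, smul_eq_mul, Finset.mul_sum]
    exact Finset.sum_congr rfl fun i _ => by ring
  apply le_antisymm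
  · apply supp_le hne
    intro z hz
    rw [e]
    exact mul_le_mul_of_nonneg_left (le_supp hM p hz) ht.le
  · rw [← le_div_iff₀' ht]
    apply supp_le hne
    intro z hz
    rw [le_div_iff₀' ht, ← e]
    exact le_supp hM _ hz

lemma supp_add {M : Set (V n)} (hM : IsCorner M) (hne : M.Nonempty) (p q : V n) :
    supp M (p + q) ≤ supp M p + supp M q := by
  apply supp_le hne
  intro z hz
  have : dotp (p + q) z = dotp p z + dotp q z := by
    simp only [dotp, Pi.add_apply, ← Finset.sum_add_distrib]
    exact Finset.sum_congr rfl fun i _ => by ring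
  rw [this]
  exact add_le_add (le_supp hM p hz) (le_supp hM q hz)

lemma functional_eq (f : V n →L[ℝ] ℝ) (x : V n) :
    f x = dotp (fun i => f (Pi.single i 1)) x := by
  classical
  have h1 : x = ∑ i, x i • (Pi.single i (1 : ℝ) : V n) := by
    rw [← Finset.univ_sum_single x]
    apply Finset.sum_congr rfl
    intro i _
    rw [Finset.univ_sum_single x, ← Pi.single_smul, smul_eq_mul, mul_one]
  conv_lhs => rw [h1]
  rw [map_sum]
  unfold dotp
  apply Finset.sum_congr rfl
  intro i _
  rw [map_smul, smul_eq_mul, mul_comm]

/-- separation by a nonnegative functional -/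
lemma exists_sep {M : Set (V n)} (hM : IsCorner M) (hne : M.Nonempty) {x : V n}
    (hx0 : ∀ i, 0 ≤ x i) (hx : x ∉ M) : ∃ p : V n, (∀ i, 0 ≤ p i) ∧ supp M p < dotp p x := by
  classical
  obtain ⟨f, u, hfu, hux⟩ := geometric_hahn_banach_closed_point hM.convex hM.compact.isClosed hx
  set c : V n := fun i => f (Pi.single i 1) with hc
  refine ⟨fun i => max (c i) 0, fun i => le_max_right _ _, ?_⟩
  have h1 : f x ≤ dotp (fun i => max (c i) 0) x := by
    rw [functional_eq]
    exact Finset.sum_le_sum fun i _ => mul_le_mul_of_nonneg_right (le_max_left _ _) (hx0 i)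
  have h2 : supp M (fun i => max (c i) 0) ≤ u := by
    apply supp_le hne
    intro z hz
    set z' : V n := fun i => if c i < 0 then 0 else z i with hz'
    have hz'M : z' ∈ M := by
      apply hM.down z hz
      · intro i; simp only [hz']; split_ifs
        · exact le_rfl
        · exact hM.nonneg z hz i
      · intro i; simp only [hz']; split_ifs
        · exact hM.nonneg z hz i
        · exact le_rfl
    have h3 : dotp (fun i => max (c i) 0) z = f z' := by
      rw [functional_eq]
      apply Finset.sum_congr rfl
      intro i _
      simp only [hz']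
      split_ifs with h
      · rw [max_eq_right h.le]; ring
      · rw [max_eq_left (not_lt.1 h)]
    rw [h3]
    exact (hfu z' hz'M).le
  linarith

/-- the hull by cylinders over the coordinate shadows -/
def Hull (M : Set (V n)) : Set (V n) :=
  {x | (∀ i, 0 ≤ x i) ∧ ∀ i, Function.update x i 0 ∈ M}

lemma dotp_update (p x : V n) (i : Fin n) : dotp p (Function.update x i 0) =
    dotp p x - p i * x i := by
  classical
  unfold dotp
  rw [← Finset.add_sum_erase _ _ (Finset.mem_univ i), ← Finset.add_sum_erase (Finset.univ)
    (fun j => p j * x j) (Finset.mem_univ i)]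
  rw [Function.update_self, mul_zero, zero_add, add_sub_cancel_left]
  apply Finset.sum_congr rfl
  intro j hj
  rw [Function.update_of_ne (Finset.ne_of_mem_erase hj)]

end Pool.Agent.Shadow.Corner
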