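import Pool.Agent.Shadow.CornerF

/-!
# Every point of the cylinder hull is reached by the transport map: the dual problem
-/

set_option autoImplicit false

open Finset Filter Topology MeasureTheory
open scoped ENNReal NNReal

namespace Pool.Agent.Shadow.Corner

variable {n : ℕ}

/-- the compact set of normalised functionals -/
def Dual (M : Set (V n)) (x : V n) : Set (V n) :=
  {p | (∀ i, 0 ≤ p i) ∧ ∑ i, p i = 1 ∧ supp M p ≤ dotp p x}

lemma Dual_compact {M : Set (V n)} (hM : IsCorner M) (x : V n) : IsCompact (Dual M x) := by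
  apply Metric.isCompact_of_isClosed_isBounded
  · have : Dual M x = (⋂ i, {p : V n | 0 ≤ p i}) ∩ ({p | ∑ i, p i = 1} ∩
        {p | supp M p ≤ dotp p x}) := by
      ext p
      simp [Dual]
    rw [this]
    refine (isClosed_iInter fun i => isClosed_le continuous_const (continuous_apply i)).inter
      (IsClosed.inter ?_ ?_)
    · exact isClosed_eq (continuous_finsetSum _ fun i _ => continuous_apply i) continuous_const
    · exact isClosed_le (supp_cont hM)
        (dotp_cont2.comp (Continuous.prodMk continuous_id continuous_const))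
  · refine (Metric.isBounded_iff_subset_closedBall 0).2 ⟨1, ?_⟩
    intro p hp
    rw [mem_closedBall_zero_iff]
    apply (pi_norm_le_iff_of_nonneg zero_le_one).2
    intro i
    rw [Real.norm_eq_abs, abs_of_nonneg (hp.1 i), ← hp.2.1]
    exact Finset.single_le_sum (fun j _ => hp.1 j) (Finset.mem_univ i)

lemma supp_pos {M : Set (V n)} (hM : IsCorner M) {e : V n} (he : e ∈ M) (hpos : ∀ i, 0 < e i)
    {p : V n} (hp : ∀ i, 0 ≤ p i) (hs : ∑ i, p i = 1) : 0 < supp M p := by
  refine lt_of_lt_of_le ?_ (le_supp hM p he)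
  unfold dotp
  obtain ⟨i, hi⟩ : ∃ i, 0 < p i := by
    by_contra hcon
    push Not at hcon
    have : ∑ i, p i ≤ 0 := Finset.sum_nonpos fun i _ => hcon i
    linarith
  apply Finset.sum_pos' (fun j _ => mul_nonneg (hp j) (hpos j).le)
  exact ⟨i, Finset.mem_univ i, mul_pos hi (hpos i)⟩

/-- the maximiser of the dual problem -/
lemma exists_dual {M : Set (V n)} (hM : IsCorner M) (hn : 2 ≤ n) {e : V n} (he : e ∈ M)
    (hpos : ∀ i, 0 < e i) {l : ℝ} (hl0 : 0 < l) (hl1 : l < 1) {x' : V n} (hx' : x' ∈ Hull M)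
    (hx : l • x' ∉ M) :
    ∃ p : V n, (∀ i, 0 < p i) ∧ supp M p < dotp p (l • x') ∧
      (∀ i, dotp p (Function.update (l • x') i 0) < supp M p) ∧
      ∀ q : V n, (∀ i, 0 < q i) → supp M q ≤ dotp q (l • x') →
        (dotp q (l • x') - supp M q) ^ n * ∏ i, p i ≤
          (dotp p (l • x') - supp M p) ^ n * ∏ i, q i := by
  classical
  set x : V n := l • x' with hxdef
  have hne : M.Nonempty := ⟨e, he⟩
  have hx0 : ∀ i, 0 ≤ x i := fun i => by
    rw [hxdef, Pi.smul_apply, smul_eq_mul]; exact mul_nonneg hl0.le (hx'.1 i)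
  -- strict inequality for the coordinate shadows
  have hsh : ∀ p : V n, (∀ i, 0 ≤ p i) → ∑ i, p i = 1 → ∀ i,
      dotp p (Function.update x i 0) < supp M p := by
    intro p hp hs i
    have h1 : dotp p (Function.update x i 0) = l * dotp p (Function.update x' i 0) := by
      rw [dotp_update, dotp_update]
      have : dotp p x = l * dotp p x' := by
        unfold dotp
        rw [Finset.mul_sum]
        apply Finset.sum_congr rfl
        intro j _
        rw [hxdef, Pi.smul_apply, smul_eq_mul]; ring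
      rw [this, hxdef, Pi.smul_apply, smul_eq_mul]
      ring
    have h2 := le_supp hM p (hx'.2 i)
    have h3 := supp_pos hM he hpos hp hs
    rw [h1]
    nlinarith
  have hppos : ∀ p ∈ Dual M x, ∀ i, 0 < p i := by
    intro p hp i
    rcases lt_or_eq_of_le (hp.1 i) with h | h
    · exact h
    · exfalso
      have h1 := hsh p hp.1 hp.2.1 i
      rw [dotp_update, ← h, zero_mul, sub_zero] at h1
      linarith [hp.2.2]
  -- a strictly separating functional
  obtain ⟨p0, hp00, hp01⟩ := exists_sep hM hne hx0 hx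
  have hs0 : 0 < ∑ i, p0 i := by
    rcases lt_or_eq_of_le (Finset.sum_nonneg fun i (_ : i ∈ Finset.univ) => hp00 i) with h | h
    · exact h
    · exfalso
      have h1 : ∀ i, p0 i = 0 := fun i =>
        (Finset.sum_eq_zero_iff_of_nonneg fun i _ => hp00 i).1 h.symm i (Finset.mem_univ i)
      have h2 : ∀ z, dotp p0 z = 0 := fun z => by
        unfold dotp; exact Finset.sum_eq_zero fun i _ => by rw [h1 i, zero_mul]
      have h3 := le_supp hM p0 he
      rw [h2] at h3 hp01
      linarith
  have hdsm : ∀ (t : ℝ) (q z : V n), dotp (t • q) z = t * dotp q z := by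
    intro t q z
    simp only [dotp, Pi.smul_apply, smul_eq_mul, Finset.mul_sum]
    exact Finset.sum_congr rfl fun i _ => by ring
  have hnorm : ∀ q : V n, (∀ i, 0 ≤ q i) → 0 < ∑ i, q i → supp M q ≤ dotp q x →
      (∑ i, q i)⁻¹ • q ∈ Dual M x := by
    intro q hq hs hle
    refine ⟨fun i => ?_, ?_, ?_⟩
    · rw [Pi.smul_apply, smul_eq_mul]; exact mul_nonneg (inv_nonneg.2 hs.le) (hq i)
    · simp only [Pi.smul_apply, smul_eq_mul, ← Finset.mul_sum]
      exact inv_mul_cancel₀ hs.ne'
    · rw [supp_smul hM hne (inv_pos.2 hs), hdsm]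
      exact mul_le_mul_of_nonneg_left hle (inv_nonneg.2 hs.le)
  set Φ : V n → ℝ := fun p => (dotp p x - supp M p) ^ n / ∏ i, p i with hΦ
  have hcont : ContinuousOn Φ (Dual M x) := by
    apply ContinuousOn.div
    · apply Continuous.continuousOn
      exact ((dotp_cont2.comp (Continuous.prodMk continuous_id continuous_const)).sub
        (supp_cont hM)).pow n
    · exact (continuous_finsetProd _ fun i _ => continuous_apply i).continuousOn
    · intro p hp
      exact (Finset.prod_pos fun i _ => hppos p hp i).ne'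
  obtain ⟨p, hpD, hpmax⟩ := (Dual_compact hM x).exists_isMaxOn
    ⟨_, hnorm p0 hp00 hs0 hp01.le⟩ hcont
  have hpp := hppos p hpD
  have hPp : 0 < ∏ i, p i := Finset.prod_pos fun i _ => hpp i
  -- comparison with all positive functionals
  have hall : ∀ q : V n, (∀ i, 0 < q i) → supp M q ≤ dotp q x →
      (dotp q x - supp M q) ^ n * ∏ i, p i ≤ (dotp p x - supp M p) ^ n * ∏ i, q i := by
    intro q hq hle
    have hs : 0 < ∑ i, q i := Finset.sum_pos (fun i _ => hq i)
      ⟨⟨0, by omega⟩, Finset.mem_univ _⟩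
    have h1 : Φ ((∑ i, q i)⁻¹ • q) ≤ Φ p := hpmax (hnorm q (fun i => (hq i).le) hs hle)
    have hPq : 0 < ∏ i, q i := Finset.prod_pos fun i _ => hq i
    have h2 : Φ ((∑ i, q i)⁻¹ • q) = Φ q := by
      simp only [hΦ]
      rw [hdsm, supp_smul hM hne (inv_pos.2 hs), ← mul_sub, mul_pow]
      simp only [Pi.smul_apply, smul_eq_mul]
      rw [Finset.prod_mul_distrib, Finset.prod_const, Finset.card_univ, Fintype.card_fin]
      rw [mul_div_mul_left _ _ (by positivity)]
    rw [h2] at h1
    simp only [hΦ] at h1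
    rwa [div_le_div_iff₀ hPq hPp] at h1
  refine ⟨p, hpp, ?_, hsh p hpD.1 hpD.2.1, hall⟩
  rcases lt_or_eq_of_le hpD.2.2 with h | h
  · exact h
  · exfalso
    have hp0D := hnorm p0 hp00 hs0 hp01.le
    have hq := hppos _ hp0D
    have h1 : Φ ((∑ i, p0 i)⁻¹ • p0) ≤ Φ p := hpmax hp0D
    have h2 : Φ p = 0 := by
      simp only [hΦ]; rw [h, sub_self, zero_pow (by omega), zero_div]
    have h3 : 0 < Φ ((∑ i, p0 i)⁻¹ • p0) := by
      simp only [hΦ]
      apply div_pos
      · apply pow_pos
        rw [hdsm, supp_smul hM hne (inv_pos.2 hs0), ← mul_sub]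
        exact mul_pos (inv_pos.2 hs0) (by linarith)
      · exact Finset.prod_pos fun i _ => hq i
    linarith

end Pool.Agent.Shadow.Corner
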