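import Pool.Agent.Shadow.CornerG

/-!
# The volume of the cylinder hull of a corner body
-/

set_option autoImplicit false

open Finset Filter Topology MeasureTheory
open scoped ENNReal NNReal Pointwise

namespace Pool.Agent.Shadow.Corner

variable {n : ℕ}

lemma dotp_add_left (p q z : V n) : dotp (p + q) z = dotp p z + dotp q z := by
  simp only [dotp, Pi.add_apply, ← Finset.sum_add_distrib]
  exact Finset.sum_congr rfl fun i _ => by ring

lemma dotp_smul_left (t : ℝ) (q z : V n) : dotp (t • q) z = t * dotp q z := by
  simp only [dotp, Pi.smul_apply, smul_eq_mul, Finset.mul_sum]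
  exact Finset.sum_congr rfl fun i _ => by ring

lemma reach {M : Set (V n)} (hM : IsCorner M) (hn : 2 ≤ n) {e : V n} (he : e ∈ M)
    (hpos : ∀ i, 0 < e i) {l : ℝ} (hl0 : 0 < l) (hl1 : l < 1) {x' : V n} (hx' : x' ∈ Hull M)
    (hx : l • x' ∉ M) : ∃ k, l • x' ∈ trans M '' Dom M k := by
  classical
  obtain ⟨p, hp, hsep, hsh, hmax⟩ := exists_dual hM hn he hpos hl0 hl1 hx' hx
  set x : V n := l • x' with hxdef
  have hne : M.Nonempty := ⟨e, he⟩
  have hn0 : (2 : ℝ) ≤ n := by exact_mod_cast hn
  set ρ : ℝ := dotp p x - supp M p with hρ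
  have hρ0 : 0 < ρ := by linarith
  set a : V n := fun i => x i - ρ / (n * p i) with ha
  have hpa : ∀ q : V n, dotp q a = dotp q x - ρ / n * ∑ i, q i / p i := by
    intro q
    unfold dotp
    rw [Finset.mul_sum, ← Finset.sum_sub_distrib]
    apply Finset.sum_congr rfl
    intro i _
    simp only [ha]
    have := (hp i).ne'
    field_simp
  have hpa' : dotp p a = supp M p := by
    rw [hpa]
    have : ∑ i, p i / p i = n := by
      rw [Finset.sum_congr rfl fun i _ => div_self (hp i).ne']
      simp
    rw [this, hρ]
    field_simp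
    ring
  -- the touching point lies in the body
  have haM : a ∈ M := by
    by_contra hcon
    obtain ⟨f, u, hfu, hua⟩ := geometric_hahn_banach_closed_point hM.convex
      hM.compact.isClosed hcon
    set q : V n := fun i => f (Pi.single i 1) with hq
    have hfq : ∀ z, f z = dotp q z := functional_eq f
    set κ : ℝ := dotp q x - u with hκ
    have hκ1 : ρ / n * ∑ i, q i / p i < κ := by
      have h1 := hpa q
      rw [← hfq a] at h1
      rw [hκ]
      linarith
    have hsupp : ∀ t : ℝ, 0 ≤ t → supp M (p + t • q) ≤ supp M p + t * u := by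
      intro t ht
      apply supp_le hne
      intro z hz
      rw [dotp_add_left, dotp_smul_left, ← hfq z]
      have h1 := le_supp hM p hz
      have h2 := mul_le_mul_of_nonneg_left (hfu z hz).le ht
      linarith
    have hder : HasDerivAt (fun t : ℝ => (n : ℝ) * Real.log (ρ + t * κ) -
        ∑ i, Real.log (p i + t * q i)) ((n : ℝ) * (κ / ρ) - ∑ i, q i / p i) 0 := by
      apply HasDerivAt.sub
      · apply HasDerivAt.const_mul
        have h1 : HasDerivAt (fun t : ℝ => ρ + t * κ) κ 0 := by
          have := ((hasDerivAt_id (0 : ℝ)).mul_const κ).const_add ρ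
          simpa using this
        have h2 := h1.log (by simpa using hρ0.ne')
        simpa using h2
      · exact hasDeriv_logsum p q hp
    have hle := deriv_nonpos hder ?_
    · have h1 : ∑ i, q i / p i < (n : ℝ) * (κ / ρ) := by
        have h2 : (n : ℝ) / ρ * (ρ / n * ∑ i, q i / p i) < n / ρ * κ :=
          mul_lt_mul_of_pos_left hκ1 (by positivity)
        have h3 : (n : ℝ) / ρ * (ρ / n * ∑ i, q i / p i) = ∑ i, q i / p i := by
          field_simp
        rw [h3] at h2
        calc _ < n / ρ * κ := h2
          _ = _ := by ring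
      linarith
    · have hκpos : ∀ᶠ t in 𝓝[>] (0 : ℝ), 0 < ρ + t * κ := by
        have : Tendsto (fun t : ℝ => ρ + t * κ) (𝓝[>] (0 : ℝ)) (𝓝 (ρ + 0 * κ)) := by
          apply Tendsto.mono_left _ nhdsWithin_le_nhds
          exact Continuous.tendsto (by fun_prop) 0
        exact this.eventually (lt_mem_nhds (by simpa using hρ0))
      filter_upwards [pos_small p q hp, hκpos, self_mem_nhdsWithin] with t ht1 ht2 ht0
      have ht0' : (0 : ℝ) < t := ht0
      have e1 : ∀ i, (p + t • q) i = p i + t * q i := fun i => by simp
      have h1 : ρ + t * κ ≤ dotp (p + t • q) x - supp M (p + t • q) := by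
        have h2 := hsupp t ht0'.le
        rw [dotp_add_left, dotp_smul_left]
        rw [hρ, hκ]
        linarith
      have h2 := hmax (p + t • q) (fun i => by rw [e1]; exact ht1 i) (by linarith)
      have h3 : (ρ + t * κ) ^ n * ∏ i, p i ≤ ρ ^ n * ∏ i, (p i + t * q i) := by
        calc (ρ + t * κ) ^ n * ∏ i, p i ≤
              (dotp (p + t • q) x - supp M (p + t • q)) ^ n * ∏ i, p i := by
              apply mul_le_mul_of_nonneg_right (pow_le_pow_left₀ ht2.le h1 n)
              exact Finset.prod_nonneg fun i _ => (hp i).le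
          _ ≤ _ := h2
          _ = _ := by
              congr 1
      have hP : 0 < ∏ i, p i := Finset.prod_pos fun i _ => hp i
      have hQ : 0 < ∏ i, (p i + t * q i) := Finset.prod_pos fun i _ => ht1 i
      have h4 := Real.log_le_log (by positivity) h3
      rw [Real.log_mul (by positivity) hP.ne', Real.log_mul (by positivity) hQ.ne',
        Real.log_pow, Real.log_pow, Real.log_prod (fun i _ => (hp i).ne'),
        Real.log_prod (fun i _ => (ht1 i).ne')] at h4
      simp only [zero_mul, add_zero]
      linarith
  -- the source point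
  set y : V n := fun i => x i - ρ / p i with hy
  have hy0 : ∀ i, 0 < y i := by
    intro i
    have h1 := hsh i
    rw [dotp_update] at h1
    simp only [hy]
    rw [sub_pos, div_lt_iff₀ (hp i)]
    rw [hρ]
    linarith
  have hay : ∀ i, a i - y i = ρ * ((n : ℝ) - 1) / (n * p i) := by
    intro i
    simp only [ha, hy]
    have := (hp i).ne'
    field_simp
    ring
  have hay0 : ∀ i, 0 < a i - y i := by
    intro i
    rw [hay]
    have h1 := hp i
    have h2 : (0 : ℝ) < (n : ℝ) - 1 := by linarith
    positivity
  have hrel : Rel M y a := by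
    refine ⟨haM, fun i => by linarith [hay0 i], fun z hz => ?_⟩
    have h1 : ∑ i, (z i - a i) / (a i - y i) =
        (n : ℝ) / (ρ * ((n : ℝ) - 1)) * (dotp p z - dotp p a) := by
      unfold dotp
      rw [← Finset.sum_sub_distrib, Finset.mul_sum]
      apply Finset.sum_congr rfl
      intro i _
      rw [hay]
      have h1 := (hp i).ne'
      have h2 : (n : ℝ) - 1 ≠ 0 := by linarith
      field_simp
    rw [h1, hpa']
    apply mul_nonpos_of_nonneg_of_nonpos
    · have h2 : (0 : ℝ) < (n : ℝ) - 1 := by linarith
      positivity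
    · linarith [le_supp hM p hz]
  obtain ⟨k, hk⟩ := exists_nat_one_div_lt (Finset.prod_pos fun i (_ : i ∈ Finset.univ) => hay0 i)
  refine ⟨k, y, ⟨hy0, a, haM, fun i => by linarith [hay0 i], by rwa [one_div] at hk⟩, ?_⟩
  unfold trans
  rw [outer_eq hrel]
  funext i
  simp only [Pi.smul_apply, Pi.sub_apply, smul_eq_mul, ha, hy]
  have h1 := (hp i).ne'
  have h2 : (n : ℝ) - 1 ≠ 0 := by linarith
  field_simp
  ring

/-- the volume of the cylinder hull is at most `n / (n - 1)` times the volume -/
theorem hull_volume {M : Set (V n)} (hM : IsCorner M) (hn : 2 ≤ n) :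
    volume (Hull M) ≤ ENNReal.ofReal ((n : ℝ) / (n - 1)) * volume M := by
  classical
  have hn0 : (2 : ℝ) ≤ n := by exact_mod_cast hn
  by_cases hfull : ∃ e ∈ M, ∀ i, 0 < e i
  · obtain ⟨e, he, hpos⟩ := hfull
    have hkey : ∀ l : ℝ, 0 < l → l < 1 → volume (l • Hull M) ≤
        ENNReal.ofReal ((n : ℝ) / (n - 1)) * volume M := by
      intro l hl0 hl1
      have hsub : l • Hull M ⊆ M ∪ ⋃ k, trans M '' Dom M k := by
        rintro _ ⟨x', hx', rfl⟩
        by_cases hmem : l • x' ∈ M
        · exact Or.inl hmem
        · obtain ⟨k, hk⟩ := reach hM hn he hpos hl0 hl1 hx' hmem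
          exact Or.inr (Set.mem_iUnion.2 ⟨k, hk⟩)
      calc volume (l • Hull M) ≤ volume (M ∪ ⋃ k, trans M '' Dom M k) := measure_mono hsub
        _ ≤ volume M + volume (⋃ k, trans M '' Dom M k) := measure_union_le _ _
        _ ≤ volume M + ENNReal.ofReal (((n : ℝ) - 1)⁻¹) * volume M := by
            gcongr; exact trans_union_volume hM hn
        _ = ENNReal.ofReal ((n : ℝ) / (n - 1)) * volume M := by
            rw [← one_add_mul]
            congr 1
            rw [← ENNReal.ofReal_one, ← ENNReal.ofReal_add zero_le_one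
              (inv_nonneg.2 (by linarith))]
            congr 1
            have : (n : ℝ) - 1 ≠ 0 := by linarith
            field_simp
            ring
    have hlim : Tendsto (fun l : ℝ => ENNReal.ofReal (l ^ n) * volume (Hull M)) (𝓝[<] (1 : ℝ))
        (𝓝 (ENNReal.ofReal (1 ^ n) * volume (Hull M))) := by
      apply ENNReal.Tendsto.mul_const
      · apply ENNReal.tendsto_ofReal
        apply Tendsto.mono_left _ nhdsWithin_le_nhds
        exact Continuous.tendsto (by fun_prop) 1
      · left
        simp
    rw [one_pow, ENNReal.ofReal_one, one_mul] at hlim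
    refine le_of_tendsto hlim ?_
    filter_upwards [Ioo_mem_nhdsLT (show (0 : ℝ) < 1 by norm_num)] with l hl
    have h1 := hkey l hl.1 hl.2
    rw [Measure.addHaar_smul, Module.finrank_fin_fun, abs_of_pos (pow_pos hl.1 n)] at h1
    exact h1
  · -- degenerate case: some coordinate vanishes on `M`
    have hz : ∃ i, ∀ z ∈ M, z i = 0 := by
      by_contra hcon
      push Not at hcon
      choose w hw hw0 using hcon
      apply hfull
      have hw' : ∀ i, 0 < w i i := fun i => lt_of_le_of_ne (hM.nonneg _ (hw i) i) (hw0 i).symm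
      refine ⟨∑ i, ((n : ℝ)⁻¹) • w i, ?_, ?_⟩
      · apply hM.convex.sum_mem (fun i _ => by positivity) _ (fun i _ => hw i)
        rw [Finset.sum_const, Finset.card_univ, Fintype.card_fin, nsmul_eq_mul]
        exact mul_inv_cancel₀ (by linarith)
      · intro j
        rw [Finset.sum_apply]
        apply Finset.sum_pos'
        · intro i _
          rw [Pi.smul_apply, smul_eq_mul]
          exact mul_nonneg (by positivity) (hM.nonneg _ (hw i) j)
        · refine ⟨j, Finset.mem_univ j, ?_⟩
          rw [Pi.smul_apply, smul_eq_mul]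
          exact mul_pos (inv_pos.2 (by linarith)) (hw' j)
    obtain ⟨i, hi⟩ := hz
    have hsub : Hull M ⊆ {x | x i = 0} := by
      intro x hx
      obtain ⟨j, hj⟩ : ∃ j : Fin n, j ≠ i := by
        have : Nontrivial (Fin n) := Fin.nontrivial_iff_two_le.2 hn
        exact exists_ne i
      have := hi _ (hx.2 j)
      rwa [Function.update_of_ne hj.symm] at this
    have h0 : volume (Hull M) = 0 := by
      apply measure_mono_null hsub
      have : {x : V n | x i = 0} = (LinearMap.ker (LinearMap.proj i : V n →ₗ[ℝ] ℝ) : Set (V n)) := by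
        ext x; simp
      rw [this]
      apply Measure.addHaar_submodule
      intro htop
      have h1 : (Pi.single i 1 : V n) ∈ LinearMap.ker (LinearMap.proj i : V n →ₗ[ℝ] ℝ) := by
        rw [htop]; trivial
      simp at h1
    rw [h0]
    exact zero_le

end Pool.Agent.Shadow.Corner
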