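import Pool.Agent.Shadow.Defs
import Pool.Agent.Shadow.CornerH

/-!
# Covering shadows when the covering body is a corner body
-/

set_option autoImplicit false

open Finset Filter Topology MeasureTheory
open scoped ENNReal NNReal Pointwise

namespace Pool.Agent.Shadow

variable {n : ℕ}

/-- `L` is a corner body: in the coordinates of some point `p` and some basis `b` of the space, all
points of `L` have nonnegative coordinates, and `L` contains with a point also all points whose
coordinates are nonnegative and at most as large. -/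
def IsCornerBody (L : Set (E n)) : Prop :=
  ∃ (p : E n) (b : Module.Basis (Fin n) ℝ (E n)),
    (∀ x ∈ L, ∀ i, 0 ≤ b.repr (x - p) i) ∧
    ∀ x ∈ L, ∀ y : E n, (∀ i, 0 ≤ b.repr (y - p) i ∧ b.repr (y - p) i ≤ b.repr (x - p) i) →
      y ∈ L

/-- images under affine coordinates scale volume by a constant -/
lemma exists_scale (p : E n) (b : Module.Basis (Fin n) ℝ (E n)) :
    ∃ κ : ℝ≥0∞, ∀ S : Set (Corner.V n),
      volume ((fun c => p + b.equivFun.symm c) '' S) = κ * volume S := by
  set Lb : E n ≃L[ℝ] Corner.V n := b.equivFunL with hLb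
  set μ' : Measure (Corner.V n) := (volume : Measure (E n)).map Lb with hμ'
  have : μ'.IsAddHaarMeasure := Lb.isAddHaarMeasure_map _
  have h1 := Measure.isAddLeftInvariant_eq_smul μ' (volume : Measure (Corner.V n))
  refine ⟨(Measure.addHaarScalarFactor μ' (volume : Measure (Corner.V n)) : ℝ≥0∞), fun S => ?_⟩
  have h2 : μ' S = (Measure.addHaarScalarFactor μ' (volume : Measure (Corner.V n)) : ℝ≥0∞) *
      volume S := by
    conv_lhs => rw [h1]
    rfl
  rw [← h2]
  have h3 : (fun c => p + b.equivFun.symm c) '' S = (fun x => p + x) '' (Lb ⁻¹' S) := by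
    ext x
    simp only [Set.mem_image, Set.mem_preimage]
    constructor
    · rintro ⟨c, hc, rfl⟩
      refine ⟨b.equivFun.symm c, ?_, rfl⟩
      have : Lb (b.equivFun.symm c) = c := b.equivFun.apply_symm_apply c
      rw [this]; exact hc
    · rintro ⟨z, hz, rfl⟩
      refine ⟨Lb z, hz, ?_⟩
      have : b.equivFun.symm (Lb z) = z := b.equivFun.symm_apply_apply z
      rw [this]
  rw [h3, Set.image_add_left, measure_preimage_add, hμ']
  exact (Lb.toHomeomorph.toMeasurableEquiv.map_apply S).symm

theorem corner_bound (hn : 2 ≤ n) {K L : Set (E n)} (hK : IsBody K) (hL : IsBody L)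
    (hc : IsCornerBody L) (hcov : Covers L K) :
    volume K ≤ ENNReal.ofReal ((n : ℝ) / (n - 1)) * volume L := by
  classical
  obtain ⟨p, b, hb1, hb2⟩ := hc
  set φ : E n → Corner.V n := fun x => b.equivFun (x - p) with hφ
  have hφr : ∀ x i, φ x i = b.repr (x - p) i := fun x i => rfl
  set ψ : Corner.V n → E n := fun c => p + b.equivFun.symm c with hψ
  have hψφ : ∀ x, ψ (φ x) = x := fun x => by
    show p + b.equivFun.symm (b.equivFun (x - p)) = x
    rw [LinearEquiv.symm_apply_apply, add_sub_cancel]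
  have hφψ : ∀ c, φ (ψ c) = c := fun c => by
    show b.equivFun (p + b.equivFun.symm c - p) = c
    rw [add_sub_cancel_left, LinearEquiv.apply_symm_apply]
  have hφc : Continuous φ := by
    have : Continuous (b.equivFunL : E n → Corner.V n) := b.equivFunL.continuous
    exact this.comp (continuous_id.sub continuous_const)
  set M : Set (Corner.V n) := φ '' L with hM
  have hMc : Corner.IsCorner M := by
    refine ⟨hL.2.1.image hφc, ?_, ?_, ?_⟩
    · rintro _ ⟨x, hx, rfl⟩ _ ⟨y, hy, rfl⟩ s t hs ht hst
      refine ⟨s • x + t • y, hL.2.2 hx hy hs ht hst, ?_⟩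
      simp only [hφ]
      rw [← map_smul, ← map_smul, ← map_add]
      congr 1
      have : p = s • p + t • p := by rw [← add_smul, hst, one_smul]
      nth_rewrite 1 [this]
      rw [smul_sub, smul_sub]
      abel
    · rintro _ ⟨x, hx, rfl⟩ i
      exact hb1 x hx i
    · rintro _ ⟨x, hx, rfl⟩ y hy0 hyx
      refine ⟨ψ y, hb2 x hx _ fun i => ?_, hφψ y⟩
      have : b.repr (ψ y - p) i = y i := by rw [← hφr, hφψ]
      rw [this]
      exact ⟨hy0 i, hyx i⟩
  have hLψ : L = ψ '' M := by
    rw [hM, ← Set.image_comp]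
    have : ψ ∘ φ = id := by funext x; exact hψφ x
    rw [this, Set.image_id]
  -- the minimal coordinates of `K`
  have hmin : ∀ i, ∃ x ∈ K, ∀ y ∈ K, φ x i ≤ φ y i := by
    intro i
    have h1 : ContinuousOn (fun x => φ x i) K := ((continuous_apply i).comp hφc).continuousOn
    obtain ⟨x, hx, hxm⟩ := hK.2.1.exists_isMinOn hK.1 h1
    exact ⟨x, hx, fun y hy => hxm hy⟩
  choose w hwK hwm using hmin
  set m : Corner.V n := fun i => φ (w i) i with hm
  have hKsub : K ⊆ ψ '' ((fun c => m + c) '' Corner.Hull M) := by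
    intro x hx
    refine ⟨φ x, ⟨φ x - m, ⟨fun i => ?_, fun i => ?_⟩, by simp⟩, hψφ x⟩
    · simp only [Pi.sub_apply, hm]
      linarith [hwm i x hx]
    · -- use the shadow in the direction of the basis vector
      have hbi : b i ≠ 0 := b.ne_zero i
      have hbn : ‖b i‖ ≠ 0 := norm_ne_zero_iff.2 hbi
      set u : E n := (‖b i‖)⁻¹ • b i with hu
      have hun : ‖u‖ = 1 := by
        rw [hu, norm_smul, norm_inv, norm_norm, inv_mul_cancel₀ hbn]
      obtain ⟨v, -, hv⟩ := hcov u hun
      have hline : ∀ z ∈ K, ∃ ℓ ∈ L, ∀ j, j ≠ i → φ ℓ j = φ z j + b.repr v j := by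
        intro z hz
        obtain ⟨ℓ, hℓ, hℓe⟩ := hv ⟨shadow u z, ⟨z, hz, rfl⟩, rfl⟩
        refine ⟨ℓ, hℓ, fun j hj => ?_⟩
        have h1 : ℓ = z + v + ((inner ℝ u ℓ - inner ℝ u z) * (‖b i‖)⁻¹) • b i := by
          have h2 : ℓ - (inner ℝ u ℓ) • u = z - (inner ℝ u z) • u + v := hℓe
          have h3 : ℓ = z + v + ((inner ℝ u ℓ - inner ℝ u z)) • u := by
            rw [sub_smul]
            calc ℓ = z - (inner ℝ u z) • u + v + (inner ℝ u ℓ) • u := sub_eq_iff_eq_add.1 h2
              _ = _ := by abel
          rw [hu, smul_smul] at h3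
          exact h3
        rw [hφr, hφr, h1]
        have h4 : z + v + ((inner ℝ u ℓ - inner ℝ u z) * (‖b i‖)⁻¹) • b i - p =
            (z - p) + v + ((inner ℝ u ℓ - inner ℝ u z) * (‖b i‖)⁻¹) • b i := by abel
        rw [h4, map_add, map_add, map_smul]
        simp only [Finsupp.coe_add, Finsupp.coe_smul, Pi.add_apply, Pi.smul_apply,
          Module.Basis.repr_self, smul_eq_mul]
        rw [Finsupp.single_eq_of_ne hj, mul_zero, add_zero]
      have hc0 : ∀ j, j ≠ i → 0 ≤ m j + b.repr v j := by
        intro j hj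
        obtain ⟨ℓ, hℓ, hℓe⟩ := hline (w j) (hwK j)
        have h1 := hb1 ℓ hℓ j
        rw [← hφr, hℓe j hj] at h1
        exact h1
      obtain ⟨ℓ, hℓ, hℓe⟩ := hline x hx
      refine hMc.down (φ ℓ) ⟨ℓ, hℓ, rfl⟩ _ (fun j => ?_) fun j => ?_
      · by_cases hj : j = i
        · subst hj; rw [Function.update_self]
        · rw [Function.update_of_ne hj]
          simp only [Pi.sub_apply, hm]
          linarith [hwm j x hx]
      · by_cases hj : j = i
        · subst hj; rw [Function.update_self]; exact hb1 ℓ hℓ j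
        · rw [Function.update_of_ne hj, hℓe j hj, Pi.sub_apply]
          linarith [hc0 j hj]
  obtain ⟨κ, hκ⟩ := exists_scale p b
  calc volume K ≤ volume (ψ '' ((fun c => m + c) '' Corner.Hull M)) := measure_mono hKsub
    _ = κ * volume ((fun c => m + c) '' Corner.Hull M) := hκ _
    _ = κ * volume (Corner.Hull M) := by
        rw [Set.image_add_left, measure_preimage_add]
    _ ≤ κ * (ENNReal.ofReal ((n : ℝ) / (n - 1)) * volume M) := by
        gcongr; exact Corner.hull_volume hMc hn
    _ = ENNReal.ofReal ((n : ℝ) / (n - 1)) * (κ * volume M) := by ring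
    _ = ENNReal.ofReal ((n : ℝ) / (n - 1)) * volume L := by
        rw [← hκ M]
        congr 2
        exact hLψ.symm

end Pool.Agent.Shadow
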