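import Pool.Agent.Shadow.CornerI

/-!
# Polytopes given by `n + 2` inequalities are corner bodies
-/

set_option autoImplicit false

open Finset Filter Topology MeasureTheory
open scoped ENNReal NNReal Pointwise

namespace Pool.Agent.Shadow

variable {n : ℕ}

/-- a strictly positive linear relation between the normals of a bounded polytope -/
lemma exists_pos_relation {ι : Type} [Fintype ι] [Nonempty ι] {a : ι → E n} {c : ι → ℝ}
    {L : Set (E n)} (hL : L = {x | ∀ j, inner ℝ (a j) x ≤ c j}) (hne : L.Nonempty)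
    (hc : IsCompact L) : ∃ l : ι → ℝ, (∀ j, 0 < l j) ∧ ∑ j, l j • a j = 0 := by
  classical
  obtain ⟨y, hy⟩ := hne
  have hyL : ∀ j, inner ℝ (a j) y ≤ c j := by rw [hL] at hy; exact hy
  -- some normal is positive in each direction
  have hdir : ∀ u : E n, ‖u‖ = 1 → ∃ j, 0 < inner ℝ (a j) u := by
    intro u hu
    by_contra hcon
    push Not at hcon
    obtain ⟨R, hR⟩ := hc.isBounded.exists_norm_le
    have hmem : ∀ t : ℝ, 0 ≤ t → y + t • u ∈ L := by
      intro t ht
      rw [hL]
      intro j
      rw [inner_add_right, inner_smul_right]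
      nlinarith [hyL j, hcon j]
    have h1 := hR _ (hmem (R + ‖y‖ + 1) (by
      have := hR y hy
      have := norm_nonneg y
      linarith))
    have h2 : ‖(R + ‖y‖ + 1) • u‖ ≤ ‖y + (R + ‖y‖ + 1) • u‖ + ‖y‖ := by
      have := norm_sub_le (y + (R + ‖y‖ + 1) • u) y
      rwa [add_sub_cancel_left] at this
    rw [norm_smul, hu, mul_one, Real.norm_eq_abs] at h2
    have h3 := le_abs_self (R + ‖y‖ + 1)
    linarith
  set g : E n → ℝ := fun x => ∑ j, Real.exp (inner ℝ (a j) x) with hg
  have hgc : Continuous g := by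
    apply continuous_finsetSum
    intro j _
    exact Real.continuous_exp.comp (continuous_const.inner continuous_id)
  -- the maximum of the linear functionals on the sphere
  have hex : ∃ x, ∀ z, g x ≤ g z := by
    rcases Nat.eq_zero_or_pos n with h0 | hn
    · subst h0
      exact ⟨0, fun z => by rw [Subsingleton.elim z 0]⟩
    have hnt : Nontrivial (E n) := by
      have : Nonempty (Fin n) := ⟨⟨0, hn⟩⟩
      infer_instance
    set F : E n → ℝ := fun x => Finset.univ.sup' Finset.univ_nonempty fun j => inner ℝ (a j) x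
      with hF
    have hFc : Continuous F := by
      apply Continuous.finset_sup'_apply
      intro j _
      exact continuous_const.inner continuous_id
    obtain ⟨u0, hu0, hmin⟩ := (isCompact_sphere (0 : E n) 1).exists_isMinOn
      (NormedSpace.sphere_nonempty.2 zero_le_one) hFc.continuousOn
    have hu0n : ‖u0‖ = 1 := by simpa using hu0
    obtain ⟨j0, hj0⟩ := hdir u0 hu0n
    set m := F u0 with hm
    have hm0 : 0 < m := hj0.trans_le (Finset.le_sup' (fun j => inner ℝ (a j) u0)
      (Finset.mem_univ j0))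
    have hFx : ∀ x : E n, x ≠ 0 → ∃ j, m * ‖x‖ ≤ inner ℝ (a j) x := by
      intro x hx
      have hxn : 0 < ‖x‖ := norm_pos_iff.2 hx
      have h1 : m ≤ F ((‖x‖)⁻¹ • x) := hmin (by
        rw [mem_sphere_zero_iff_norm, norm_smul, norm_inv, norm_norm, inv_mul_cancel₀ hxn.ne'])
      obtain ⟨j, -, hj⟩ := Finset.exists_mem_eq_sup' (s := Finset.univ) Finset.univ_nonempty
        (fun j => inner ℝ (a j) ((‖x‖)⁻¹ • x))
      refine ⟨j, ?_⟩
      have h2 : m ≤ inner ℝ (a j) ((‖x‖)⁻¹ • x) := by rw [← hj]; exact h1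
      rw [inner_smul_right] at h2
      have h3 := mul_le_mul_of_nonneg_left h2 hxn.le
      rw [← mul_assoc, mul_inv_cancel₀ hxn.ne', one_mul] at h3
      linarith
    apply hgc.exists_forall_le' 0
    have h2 : ∀ᶠ x in cocompact (E n), g 0 / m < ‖x‖ :=
      tendsto_norm_cocompact_atTop.eventually (eventually_gt_atTop (g 0 / m))
    filter_upwards [h2] with x hx
    have hg0 : 0 < g 0 := Finset.sum_pos (fun j _ => Real.exp_pos _) Finset.univ_nonempty
    have hx0 : x ≠ 0 := by
      rintro rfl
      rw [norm_zero] at hx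
      exact absurd hx (not_lt.2 (div_pos hg0 hm0).le)
    obtain ⟨j, hj⟩ := hFx x hx0
    rw [div_lt_iff₀ hm0] at hx
    calc g 0 ≤ inner ℝ (a j) x := by linarith
      _ ≤ Real.exp (inner ℝ (a j) x) := by linarith [Real.add_one_le_exp (inner ℝ (a j) x)]
      _ ≤ g x := Finset.single_le_sum (f := fun j => Real.exp (inner ℝ (a j) x))
          (fun j _ => (Real.exp_pos _).le) (Finset.mem_univ j)
  obtain ⟨x, hx⟩ := hex
  refine ⟨fun j => Real.exp (inner ℝ (a j) x), fun j => Real.exp_pos _, ?_⟩
  set s := ∑ j, Real.exp (inner ℝ (a j) x) • a j with hs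
  have hder : HasDerivAt (fun t : ℝ => g (x + t • s)) (∑ j, Real.exp (inner ℝ (a j) x) *
      inner ℝ (a j) s) 0 := by
    simp only [hg]
    apply HasDerivAt.fun_sum
    intro j _
    have h1 : HasDerivAt (fun t : ℝ => inner ℝ (a j) (x + t • s)) (inner ℝ (a j) s) 0 := by
      have h2 : (fun t : ℝ => inner ℝ (a j) (x + t • s)) =
          fun t : ℝ => inner ℝ (a j) x + t * inner ℝ (a j) s := by
        funext t; rw [inner_add_right, inner_smul_right]
      rw [h2]
      have := ((hasDerivAt_id (0 : ℝ)).mul_const (inner ℝ (a j) s)).const_add (inner ℝ (a j) x)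
      simpa using this
    have h3 := h1.exp
    simpa using h3
  have hmin : IsLocalMin (fun t : ℝ => g (x + t • s)) 0 := by
    apply Filter.Eventually.of_forall
    intro t
    simp only [zero_smul, add_zero]
    exact hx _
  have h0 := hmin.hasDerivAt_eq_zero hder
  have h1 : inner ℝ s s = 0 := by
    rw [← h0]
    calc inner ℝ s s = inner ℝ (∑ j, Real.exp (inner ℝ (a j) x) • a j) s := by rw [← hs]
      _ = ∑ j, Real.exp (inner ℝ (a j) x) * inner ℝ (a j) s := by
          rw [sum_inner]
          apply Finset.sum_congr rfl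
          intro j _
          rw [real_inner_smul_left]
  exact inner_self_eq_zero.1 h1

/-- a second linear relation, not proportional to the given one -/
lemma exists_second {a : Fin (n + 2) → E n} (l : Fin (n + 2) → ℝ) :
    ∃ μ : Fin (n + 2) → ℝ, ∑ j, μ j • a j = 0 ∧ ∀ t : ℝ, μ ≠ t • l := by
  classical
  by_contra hcon
  push Not at hcon
  set T : (Fin (n + 2) → ℝ) →ₗ[ℝ] E n := Fintype.linearCombination ℝ a with hT
  have hTa : ∀ μ, T μ = ∑ j, μ j • a j := fun μ => Fintype.linearCombination_apply ℝ a μ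
  have h1 : LinearMap.ker T ≤ Submodule.span ℝ {l} := by
    intro μ hμ
    have h2 : ∑ j, μ j • a j = 0 := by rw [← hTa]; exact hμ
    obtain ⟨t, ht⟩ := hcon μ h2
    rw [Submodule.mem_span_singleton]
    exact ⟨t, ht.symm⟩
  have h2 : Module.finrank ℝ (LinearMap.ker T) ≤ 1 := by
    refine (Submodule.finrank_mono h1).trans ?_
    have := finrank_span_le_card (R := ℝ) ({l} : Set (Fin (n + 2) → ℝ))
    simpa using this
  have h3 := LinearMap.finrank_range_add_finrank_ker T
  have h4 : Module.finrank ℝ (LinearMap.range T) ≤ n := by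
    have := Submodule.finrank_le (LinearMap.range T)
    rwa [finrank_euclideanSpace_fin] at this
  rw [Module.finrank_fin_fun] at h3
  omega

/-- a bounded polytope in dimension `n` given by `n + 2` inequalities is a corner body -/
theorem polytope_corner {a : Fin (n + 2) → E n} {c : Fin (n + 2) → ℝ} {L : Set (E n)}
    (hL : L = {x | ∀ j, inner ℝ (a j) x ≤ c j}) (hne : L.Nonempty) (hc : IsCompact L) :
    IsCornerBody L := by
  classical
  obtain ⟨l, hl, hls⟩ := exists_pos_relation hL hne hc
  obtain ⟨μ, hμ, hμl⟩ := exists_second (a := a) l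
  -- extreme ratios
  obtain ⟨i, -, hi⟩ := Finset.exists_max_image Finset.univ (fun j => μ j / l j)
    ⟨0, Finset.mem_univ 0⟩
  obtain ⟨i', -, hi'⟩ := Finset.exists_min_image Finset.univ (fun j => μ j / l j)
    ⟨0, Finset.mem_univ 0⟩
  have hlt : μ i' / l i' < μ i / l i := by
    rcases lt_or_eq_of_le (hi i' (Finset.mem_univ _)) with h | h
    · exact h
    · exfalso
      apply hμl (μ i / l i)
      funext j
      have h1 := hi j (Finset.mem_univ j)
      have h2 := hi' j (Finset.mem_univ j)
      have h3 : μ j / l j = μ i / l i := le_antisymm h1 (by linarith)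
      rw [Pi.smul_apply, smul_eq_mul, ← h3, div_mul_cancel₀ _ (hl j).ne']
  -- the two extreme relations
  set ν : Fin (n + 2) → ℝ := fun j => μ j - μ i' / l i' * l j with hν
  set ν' : Fin (n + 2) → ℝ := fun j => μ i / l i * l j - μ j with hν'
  have hν0 : ∀ j, 0 ≤ ν j := fun j => by
    have h1 := hi' j (Finset.mem_univ j)
    rw [le_div_iff₀ (hl j)] at h1
    simp only [hν]; linarith
  have hν'0 : ∀ j, 0 ≤ ν' j := fun j => by
    have h1 := hi j (Finset.mem_univ j)
    rw [div_le_iff₀ (hl j)] at h1
    simp only [hν']; linarith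
  have hνi : 0 < ν i := by
    simp only [hν]
    have h1 : μ i = μ i / l i * l i := (div_mul_cancel₀ _ (hl i).ne').symm
    rw [h1]
    nlinarith [hl i]
  have hν'i : 0 < ν' i' := by
    simp only [hν']
    have h1 : μ i' = μ i' / l i' * l i' := (div_mul_cancel₀ _ (hl i').ne').symm
    nlinarith [hl i']
  have hνz : ν i' = 0 := by
    simp only [hν]; rw [div_mul_cancel₀ _ (hl i').ne', sub_self]
  have hν'z : ν' i = 0 := by
    simp only [hν']; rw [div_mul_cancel₀ _ (hl i).ne', sub_self]
  have hνs : ∑ j, ν j • a j = 0 := by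
    simp only [hν, sub_smul, Finset.sum_sub_distrib, mul_smul, ← Finset.smul_sum]
    rw [hμ, hls, smul_zero, sub_zero]
  have hν's : ∑ j, ν' j • a j = 0 := by
    simp only [hν', sub_smul, Finset.sum_sub_distrib, mul_smul, ← Finset.smul_sum]
    rw [hμ, hls, smul_zero, sub_zero]
  have hii : i ≠ i' := by
    rintro rfl
    exact lt_irrefl _ hlt
  -- the remaining indices
  have hcard : Fintype.card {j : Fin (n + 2) // j ≠ i ∧ j ≠ i'} = n := by
    rw [Fintype.card_subtype]
    have : (Finset.univ.filter fun j : Fin (n + 2) => j ≠ i ∧ j ≠ i') =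
        Finset.univ \ {i, i'} := by
      ext j; simp
    rw [this, Finset.card_sdiff_of_subset (Finset.subset_univ _), Finset.card_pair hii]
    simp
  set e : Fin n ≃ {j : Fin (n + 2) // j ≠ i ∧ j ≠ i'} :=
    (Fintype.equivFinOfCardEq hcard).symm with he
  -- the coordinate functionals
  set A : E n →ₗ[ℝ] (Fin n → ℝ) := LinearMap.pi fun k => -(innerₛₗ ℝ (a (e k))) with hA
  have hAa : ∀ x k, A x k = -inner ℝ (a (e k)) x := fun x k => by simp [hA]
  -- splitting a sum over all indices
  have hsplit : ∀ f : Fin (n + 2) → ℝ, ∑ j, f j = f i + f i' + ∑ k, f (e k) := by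
    intro f
    have h1 : ∑ k, f (e k) = ∑ j : {j : Fin (n + 2) // j ≠ i ∧ j ≠ i'}, f j :=
      Equiv.sum_comp e fun j => f j
    rw [h1]
    have h2 : ∑ j : {j : Fin (n + 2) // j ≠ i ∧ j ≠ i'}, f j =
        ∑ j ∈ Finset.univ \ {i, i'}, f j := by
      rw [← Finset.sum_coe_sort (Finset.univ \ {i, i'} : Finset (Fin (n + 2)))]
      apply Fintype.sum_equiv (Equiv.subtypeEquivRight fun j => by simp)
      intro j; rfl
    have h3 := Finset.sum_sdiff (f := f) (Finset.subset_univ ({i, i'} : Finset (Fin (n + 2))))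
    rw [Finset.sum_pair hii] at h3
    rw [h2]
    linarith
  -- the relations in scalar form
  have hrel : ∀ x, ν i * inner ℝ (a i) x = ∑ k, ν (e k) * A x k := by
    intro x
    have h1 : ∑ j, ν j * inner ℝ (a j) x = 0 := by
      have : inner ℝ (∑ j, ν j • a j) x = 0 := by rw [hνs, inner_zero_left]
      rw [sum_inner] at this
      rw [← this]
      exact Finset.sum_congr rfl fun j _ => by rw [real_inner_smul_left]
    rw [hsplit, hνz, zero_mul, add_zero] at h1
    have h2 : ∑ k, ν (e k) * A x k = -∑ k, ν (e k) * inner ℝ (a (e k)) x := by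
      rw [← Finset.sum_neg_distrib]
      exact Finset.sum_congr rfl fun k _ => by rw [hAa]; ring
    rw [h2]
    linarith
  have hrel' : ∀ x, ν' i' * inner ℝ (a i') x = ∑ k, ν' (e k) * A x k := by
    intro x
    have h1 : ∑ j, ν' j * inner ℝ (a j) x = 0 := by
      have : inner ℝ (∑ j, ν' j • a j) x = 0 := by rw [hν's, inner_zero_left]
      rw [sum_inner] at this
      rw [← this]
      exact Finset.sum_congr rfl fun j _ => by rw [real_inner_smul_left]
    rw [hsplit, hν'z, zero_mul, zero_add] at h1
    have h2 : ∑ k, ν' (e k) * A x k = -∑ k, ν' (e k) * inner ℝ (a (e k)) x := by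
      rw [← Finset.sum_neg_distrib]
      exact Finset.sum_congr rfl fun k _ => by rw [hAa]; ring
    rw [h2]
    linarith
  -- the functionals are coordinates
  obtain ⟨y, hy⟩ := hne
  have hyL : ∀ j, inner ℝ (a j) y ≤ c j := by rw [hL] at hy; exact hy
  have hinj : Function.Injective A := by
    rw [injective_iff_map_eq_zero]
    intro x hx
    have h1 : ∀ j, inner ℝ (a j) x = 0 := by
      intro j
      by_cases hj : j = i
      · subst hj
        have := hrel x
        rw [hx] at this
        simp only [Pi.zero_apply, mul_zero, Finset.sum_const_zero] at this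
        exact (mul_eq_zero.1 this).resolve_left hνi.ne'
      · by_cases hj' : j = i'
        · subst hj'
          have := hrel' x
          rw [hx] at this
          simp only [Pi.zero_apply, mul_zero, Finset.sum_const_zero] at this
          exact (mul_eq_zero.1 this).resolve_left hν'i.ne'
        · have h2 := hAa x (e.symm ⟨j, hj, hj'⟩)
          rw [hx, Equiv.apply_symm_apply, Pi.zero_apply] at h2
          linarith
    by_contra hx0
    obtain ⟨R, hR⟩ := hc.isBounded.exists_norm_le
    have hmem : ∀ t : ℝ, y + t • x ∈ L := by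
      intro t
      rw [hL]
      intro j
      rw [inner_add_right, inner_smul_right, h1 j, mul_zero, add_zero]
      exact hyL j
    have hxn : 0 < ‖x‖ := norm_pos_iff.2 hx0
    have h2 := hR _ (hmem ((R + ‖y‖ + 1) / ‖x‖))
    have h3 : ‖((R + ‖y‖ + 1) / ‖x‖) • x‖ ≤ ‖y + ((R + ‖y‖ + 1) / ‖x‖) • x‖ + ‖y‖ := by
      have := norm_sub_le (y + ((R + ‖y‖ + 1) / ‖x‖) • x) y
      rwa [add_sub_cancel_left] at this
    rw [norm_smul, Real.norm_eq_abs, abs_div, abs_norm, div_mul_cancel₀ _ hxn.ne'] at h3
    have h4 := le_abs_self (R + ‖y‖ + 1)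
    linarith
  have hfr : Module.finrank ℝ (E n) = Module.finrank ℝ (Fin n → ℝ) := by
    rw [finrank_euclideanSpace_fin, Module.finrank_fin_fun]
  set Ae : E n ≃ₗ[ℝ] (Fin n → ℝ) := LinearEquiv.ofInjectiveOfFinrankEq A hinj hfr with hAe
  have hAea : ∀ x, Ae x = A x := fun x => rfl
  set p : E n := Ae.symm fun k => -c (e k) with hp
  have hAp : ∀ k, A p k = -c (e k) := fun k => by
    rw [← hAea, hp, LinearEquiv.apply_symm_apply]
  refine ⟨p, Module.Basis.ofEquivFun Ae, ?_, ?_⟩
  · intro x hx k
    have hxL : ∀ j, inner ℝ (a j) x ≤ c j := by rw [hL] at hx; exact hx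
    rw [Module.Basis.ofEquivFun_repr_apply, hAea, map_sub, Pi.sub_apply, hAp, hAa]
    linarith [hxL (e k)]
  · intro x hx z hz
    have hxL : ∀ j, inner ℝ (a j) x ≤ c j := by rw [hL] at hx; exact hx
    have hz' : ∀ k, -c (e k) ≤ A z k ∧ A z k ≤ A x k := by
      intro k
      have := hz k
      rw [Module.Basis.ofEquivFun_repr_apply, Module.Basis.ofEquivFun_repr_apply, hAea, hAea,
        map_sub, map_sub, Pi.sub_apply, Pi.sub_apply, hAp] at this
      constructor <;> linarith [this.1, this.2]
    rw [hL]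
    intro j
    by_cases hj : j = i
    · subst hj
      have h1 : ν j * inner ℝ (a j) z ≤ ν j * inner ℝ (a j) x := by
        rw [hrel, hrel]
        exact Finset.sum_le_sum fun k _ => mul_le_mul_of_nonneg_left (hz' k).2 (hν0 _)
      exact (le_of_mul_le_mul_left h1 hνi).trans (hxL j)
    · by_cases hj' : j = i'
      · subst hj'
        have h1 : ν' j * inner ℝ (a j) z ≤ ν' j * inner ℝ (a j) x := by
          rw [hrel', hrel']
          exact Finset.sum_le_sum fun k _ => mul_le_mul_of_nonneg_left (hz' k).2 (hν'0 _)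
        exact (le_of_mul_le_mul_left h1 hν'i).trans (hxL j)
      · have h1 := (hz' (e.symm ⟨j, hj, hj'⟩)).1
        rw [hAa, Equiv.apply_symm_apply] at h1
        linarith

end Pool.Agent.Shadow
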