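import Mathlib

/-!
# Bodies whose shadows cover the shadows of another body
-/

set_option autoImplicit false

namespace Pool.Agent.Shadow

/-- Euclidean `n`-space -/
abbrev E (n : ℕ) := EuclideanSpace ℝ (Fin n)

/-- a convex body: a nonempty compact convex set -/
def IsBody {n : ℕ} (K : Set (E n)) : Prop := K.Nonempty ∧ IsCompact K ∧ Convex ℝ K

/-- the orthogonal projection onto the hyperplane orthogonal to the unit vector `u` -/
noncomputable def shadow {n : ℕ} (u x : E n) : E n := x - (inner ℝ u x) • u

/-- `L` covers the shadows of `K`: for every unit vector `u` some translate, by a vector of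
the hyperplane orthogonal to `u`, of the shadow of `K` is contained in the shadow of `L`. -/
def Covers {n : ℕ} (L K : Set (E n)) : Prop :=
  ∀ u : E n, ‖u‖ = 1 → ∃ v : E n, inner ℝ u v = 0 ∧
    (fun x => x + v) '' (shadow u '' K) ⊆ shadow u '' L

end Pool.Agent.Shadow
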