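import Pool.Agent.Shadow.Fit

/-!
# Inner parallel sets
-/

set_option autoImplicit false

open Finset MeasureTheory Filter Topology
open scoped Pointwise ENNReal

namespace Pool.Agent.Shadow

variable {n : ℕ}

/-- inner parallel set -/
def erode (A L : Set (E n)) (ε : ℝ) : Set (E n) := {x | ∀ l ∈ L, x + ε • l ∈ A}

lemma shadow_continuous (u : E n) : Continuous (shadow u) := by
  unfold shadow
  fun_prop

lemma shadow_convex (u : E n) {L : Set (E n)} (h : Convex ℝ L) : Convex ℝ (shadow u '' L) := by
  intro a ha b hb s t hs ht hst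
  obtain ⟨x, hx, rfl⟩ := ha
  obtain ⟨y, hy, rfl⟩ := hb
  exact ⟨s • x + t • y, h hx hy hs ht hst, by rw [shadow_add, shadow_smul, shadow_smul]⟩

/-- the cancellation law -/
lemma erode_covers {K L : Set (E n)} (hL : IsBody L) (hc : Covers L K) {ε : ℝ} (hε : 0 ≤ ε) :
    Covers L (erode ((1 + ε) • K) L ε) := by
  intro u hu
  obtain ⟨v, hv0, hv⟩ := hc u hu
  refine ⟨(1 + ε) • v, by rw [inner_smul_right, hv0, mul_zero], ?_⟩
  rintro _ ⟨_, ⟨x, hx, rfl⟩, rfl⟩
  by_contra hmem
  have hSc : IsCompact (shadow u '' L) := hL.2.1.image (shadow_continuous u)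
  have hSv : Convex ℝ (shadow u '' L) := shadow_convex u hL.2.2
  obtain ⟨f, u0, hf1, hf2⟩ := geometric_hahn_banach_closed_point hSv hSc.isClosed hmem
  obtain ⟨s, hs, hmax⟩ := hSc.exists_isMaxOn (hL.1.image _) f.continuous.continuousOn
  obtain ⟨l, hl, rfl⟩ := hs
  obtain ⟨k, hk, hk'⟩ := hx l hl
  have h1 := hv ⟨shadow u k, ⟨k, hk, rfl⟩, rfl⟩
  obtain ⟨y, hy, hy'⟩ := h1
  have hy'' : shadow u y = shadow u k + v := hy'
  have h2 : shadow u x + (1 + ε) • v + ε • shadow u l = (1 + ε) • shadow u y := by
    have h3 : shadow u x + ε • shadow u l = (1 + ε) • shadow u k := by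
      rw [← shadow_smul, ← shadow_add, ← shadow_smul]
      congr 1
      exact hk'.symm
    rw [hy'', smul_add, ← h3]
    abel
  have h4 := congrArg f h2
  rw [map_add, map_smul, map_smul, smul_eq_mul, smul_eq_mul] at h4
  have h5 : f (shadow u y) ≤ f (shadow u l) := hmax ⟨y, hy, rfl⟩
  have h6 := hf1 _ ⟨l, hl, rfl⟩
  have h7 : (1 + ε) * f (shadow u y) ≤ (1 + ε) * f (shadow u l) :=
    mul_le_mul_of_nonneg_left h5 (by linarith)
  have hf2' : u0 < f (shadow u x + (1 + ε) • v) := hf2
  nlinarith

lemma erode_closed {A L : Set (E n)} (hA : IsClosed A) (ε : ℝ) : IsClosed (erode A L ε) := by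
  have : erode A L ε = ⋂ l ∈ L, (fun x => x + ε • l) ⁻¹' A := by
    ext x; simp [erode]
  rw [this]
  exact isClosed_biInter fun l _ => hA.preimage (by fun_prop)

lemma erode_convex {A L : Set (E n)} (hA : Convex ℝ A) (ε : ℝ) : Convex ℝ (erode A L ε) := by
  intro x hx y hy s t hs ht hst l hl
  have h := hA (hx l hl) (hy l hl) hs ht hst
  have e : s • (x + ε • l) + t • (y + ε • l) = s • x + t • y + ε • l := by
    have h2 : s • (ε • l) + t • (ε • l) = ε • l := by rw [← add_smul, hst, one_smul]
    calc s • (x + ε • l) + t • (y + ε • l) = s • x + t • y + (s • (ε • l) + t • (ε • l)) := by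
          rw [smul_add, smul_add]; abel
      _ = _ := by rw [h2]
  rwa [e] at h

lemma erode_mono {A B L : Set (E n)} (h : A ⊆ B) (ε : ℝ) : erode A L ε ⊆ erode B L ε :=
  fun _ hx l hl => h (hx l hl)

lemma measure_erode_le {A L : Set (E n)} (hL : L.Nonempty) (ε : ℝ) :
    volume (erode A L ε) ≤ volume A := by
  obtain ⟨l, hl⟩ := hL
  calc volume (erode A L ε) ≤ volume ((fun x => x + ε • l) ⁻¹' A) :=
        measure_mono fun x hx => hx l hl
    _ = volume A := measure_preimage_add_right volume (ε • l) A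

/-- one half-space -/
lemma loss_half (A : Set (E n)) {L : Set (E n)} (hLn : L.Nonempty) (hLc : IsCompact L) {ε : ℝ}
    (hε : 0 ≤ ε) (f : E n →L[ℝ] ℝ) (b : ℝ) :
    volume (erode A L ε) + volume (A ∩ {x | f x ≤ b}) ≤
      volume A + volume (erode (A ∩ {x | f x ≤ b}) L ε) := by
  obtain ⟨l, hl, hmax⟩ := hLc.exists_isMaxOn hLn f.continuous.continuousOn
  have hH : MeasurableSet {x | f x ≤ b} :=
    (isClosed_le f.continuous continuous_const).measurableSet
  have h1 : erode A L ε ⊆ erode (A ∩ {x | f x ≤ b}) L ε ∪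
      (fun x => x + ε • l) ⁻¹' (A \ {x | f x ≤ b}) := by
    intro x hx
    by_cases hxl : f (x + ε • l) ≤ b
    · left
      intro l' hl'
      refine ⟨hx l' hl', ?_⟩
      have h2 : f l' ≤ f l := hmax hl'
      have h3 : f (x + ε • l') ≤ f (x + ε • l) := by
        rw [map_add, map_add, map_smul, map_smul, smul_eq_mul, smul_eq_mul]
        have := mul_le_mul_of_nonneg_left h2 hε
        linarith
      exact h3.trans hxl
    · right
      exact ⟨hx l hl, hxl⟩
  have h2 : volume (erode A L ε) ≤ volume (erode (A ∩ {x | f x ≤ b}) L ε) +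
      volume (A \ {x | f x ≤ b}) := by
    refine (measure_mono h1).trans ((measure_union_le _ _).trans ?_)
    rw [measure_preimage_add_right]
  calc volume (erode A L ε) + volume (A ∩ {x | f x ≤ b})
      ≤ (volume (erode (A ∩ {x | f x ≤ b}) L ε) + volume (A \ {x | f x ≤ b})) +
        volume (A ∩ {x | f x ≤ b}) := by gcongr
    _ = (volume (A ∩ {x | f x ≤ b}) + volume (A \ {x | f x ≤ b})) +
        volume (erode (A ∩ {x | f x ≤ b}) L ε) := by ring
    _ = _ := by rw [measure_inter_add_sdiff A hH]

/-- a closed convex set is the intersection of a sequence of half-spaces -/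
lemma exists_half_seq {A : Set (E n)} (hA : IsClosed A) (hv : Convex ℝ A) :
    ∃ (f : ℕ → E n →L[ℝ] ℝ) (b : ℕ → ℝ), A = ⋂ m, {x | f m x ≤ b m} := by
  classical
  have h1 : ∀ x : (Aᶜ : Set (E n)), ∃ (f : E n →L[ℝ] ℝ) (b : ℝ), (∀ a ∈ A, f a ≤ b) ∧
      b < f x := by
    intro x
    obtain ⟨f, u, h1, h2⟩ := geometric_hahn_banach_closed_point hv hA x.2
    exact ⟨f, u, fun a ha => (h1 a ha).le, h2⟩
  choose f b h2 h3 using h1
  obtain ⟨T, hT, hT'⟩ := TopologicalSpace.isOpen_iUnion_countable
    (fun x : (Aᶜ : Set (E n)) => {y | b x < f x y})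
    (fun x => isOpen_lt continuous_const (f x).continuous)
  have hU : (⋃ x : (Aᶜ : Set (E n)), {y | b x < f x y}) = Aᶜ := by
    ext y
    simp only [Set.mem_iUnion, Set.mem_ofPred_eq, Set.mem_compl_iff]
    constructor
    · rintro ⟨x, hx⟩ hy
      exact absurd (h2 x y hy) (not_le.2 hx)
    · intro hy
      exact ⟨⟨y, hy⟩, h3 ⟨y, hy⟩⟩
  rw [hU] at hT'
  rcases T.eq_empty_or_nonempty with rfl | hne
  · refine ⟨fun _ => 0, fun _ => 0, ?_⟩
    simp only [Set.mem_empty_iff_false, Set.iUnion_of_empty, Set.iUnion_empty] at hT'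
    have : A = Set.univ := by rw [← compl_compl A, ← hT', Set.compl_empty]
    rw [this]
    ext x; simp
  · obtain ⟨g, hg⟩ := hT.exists_eq_range hne
    refine ⟨fun m => f (g m), fun m => b (g m), ?_⟩
    rw [← compl_inj_iff, ← hT', hg]
    ext y
    simp [Set.mem_iInter]

/-- the loss of volume is monotone -/
lemma loss_mono {A B L : Set (E n)} (hLn : L.Nonempty) (hLc : IsCompact L) {ε : ℝ}
    (hε : 0 ≤ ε) (hA : IsClosed A) (hv : Convex ℝ A) (hB : IsCompact B) (hAB : A ⊆ B) :
    volume (erode B L ε) + volume A ≤ volume B + volume (erode A L ε) := by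
  obtain ⟨f, b, hfb⟩ := exists_half_seq hA hv
  set H : ℕ → Set (E n) := fun m => {x | f m x ≤ b m} with hH
  -- the finite intersections
  set C : ℕ → Set (E n) := fun m => B ∩ ⋂ i ∈ Finset.range m, H i with hC
  have hC0 : C 0 = B := by simp [hC]
  have hCs : ∀ m, C (m + 1) = C m ∩ H m := by
    intro m
    simp only [hC]
    rw [Finset.range_add_one, Finset.set_biInter_insert, Set.inter_assoc, Set.inter_comm (H m)]
  have hCB : ∀ m, C m ⊆ B := fun m => Set.inter_subset_left
  have hfinB : volume B ≠ ∞ := hB.measure_lt_top.ne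
  have hfin : ∀ m, volume (C m) ≠ ∞ := fun m => measure_ne_top_of_subset (hCB m) hfinB
  have hfin' : ∀ m, volume (erode (C m) L ε) ≠ ∞ := fun m =>
    ne_top_of_le_ne_top (hfin m) (measure_erode_le hLn ε)
  have hAC : ∀ m, A ⊆ C m := by
    intro m x hx
    refine ⟨hAB hx, ?_⟩
    simp only [Set.mem_iInter]
    intro i _
    rw [hfb] at hx
    exact Set.mem_iInter.1 hx i
  have hstep : ∀ m, volume (erode B L ε) + volume (C m) ≤ volume B + volume (erode (C m) L ε) := by
    intro m
    induction m with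
    | zero => rw [hC0, add_comm]
    | succ m ih =>
      have h1 := loss_half (C m) hLn hLc hε (f m) (b m)
      rw [show C m ∩ {x | f m x ≤ b m} = C (m + 1) from (hCs m).symm] at h1
      have h2 := add_le_add ih h1
      have h3 : (volume (erode B L ε) + volume (C (m + 1))) +
          (volume (C m) + volume (erode (C m) L ε)) ≤
          (volume B + volume (erode (C (m + 1)) L ε)) +
          (volume (C m) + volume (erode (C m) L ε)) := by
        calc _ = volume (erode B L ε) + volume (C m) +
              (volume (erode (C m) L ε) + volume (C (m + 1))) := by ring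
          _ ≤ _ := h2
          _ = _ := by ring
      exact (ENNReal.add_le_add_iff_right (ENNReal.add_ne_top.2 ⟨hfin m, hfin' m⟩)).1 h3
  have hclosed : ∀ m, IsClosed (C m) := by
    intro m
    refine hB.isClosed.inter (isClosed_biInter fun i _ => ?_)
    exact isClosed_le (f i).continuous continuous_const
  have hanti : Antitone fun m => erode (C m) L ε := by
    refine antitone_nat_of_succ_le fun m => erode_mono ?_ ε
    rw [hCs m]
    exact Set.inter_subset_left
  have hlim := tendsto_measure_iInter_atTop (μ := (volume : Measure (E n)))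
    (s := fun m => erode (C m) L ε)
    (fun m => (erode_closed (hclosed m) ε).measurableSet.nullMeasurableSet) hanti ⟨0, hfin' 0⟩
  have hinter : (⋂ m, erode (C m) L ε) = erode A L ε := by
    apply Set.Subset.antisymm
    · intro x hx l hl
      rw [hfb]
      refine Set.mem_iInter.2 fun i => ?_
      have h1 := (Set.mem_iInter.1 hx (i + 1)) l hl
      rw [hCs i] at h1
      exact h1.2
    · exact Set.subset_iInter fun m => erode_mono (hAC m) ε
  rw [hinter] at hlim
  have h4 : ∀ m, volume (erode B L ε) + volume A ≤ volume B + volume (erode (C m) L ε) :=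
    fun m => (add_le_add le_rfl (measure_mono (hAC m))).trans (hstep m)
  exact ge_of_tendsto' (Tendsto.const_add (volume B) hlim) h4

end Pool.Agent.Shadow
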