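import Pool.Agent.Shadow.Defs

/-!
# Points of a covered body fit in the covering body
-/

set_option autoImplicit false

open Finset
open scoped Pointwise

namespace Pool.Agent.Shadow

variable {n : ℕ}

lemma inner_shadow (u w x : E n) (h : inner ℝ u w = 0) :
    inner ℝ w (shadow u x) = inner ℝ w x := by
  unfold shadow
  rw [inner_sub_right, inner_smul_right, real_inner_comm u w, h]
  simp

lemma shadow_add (u x y : E n) : shadow u (x + y) = shadow u x + shadow u y := by
  unfold shadow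
  rw [inner_add_right, add_smul]
  abel

lemma shadow_smul (u x : E n) (c : ℝ) : shadow u (c • x) = c • shadow u x := by
  unfold shadow
  rw [inner_smul_right, smul_sub, smul_smul]

/-- vectors with zero sum, as many as the dimension, are orthogonal to a common unit vector -/
lemma exists_unit_orth (hn : 1 ≤ n) (φ : Fin n → E n) (h : ∑ i, φ i = 0) :
    ∃ u : E n, ‖u‖ = 1 ∧ ∀ i, inner ℝ u (φ i) = 0 := by
  have hli : ¬ LinearIndependent ℝ φ := by
    intro hl
    rw [Fintype.linearIndependent_iff] at hl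
    have := hl (fun _ => 1) (by simpa using h) ⟨0, hn⟩
    exact one_ne_zero this
  have hlt : Module.finrank ℝ (Submodule.span ℝ (Set.range φ)) < n := by
    have h1 := finrank_range_le_card (R := ℝ) φ
    rw [Fintype.card_fin] at h1
    rcases lt_or_eq_of_le h1 with h2 | h2
    · exact h2
    · exact absurd (linearIndependent_iff_card_eq_finrank_span.2 (by
        rw [Fintype.card_fin]; exact h2.symm)) hli
  have hne : (Submodule.span ℝ (Set.range φ))ᗮ ≠ ⊥ := by
    intro hb
    have := Submodule.finrank_add_finrank_orthogonal (Submodule.span ℝ (Set.range φ))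
    rw [hb, finrank_bot, add_zero, finrank_euclideanSpace_fin] at this
    omega
  obtain ⟨w, hw, hw0⟩ := Submodule.exists_mem_ne_zero_of_ne_bot hne
  have hw1 : ‖w‖ ≠ 0 := norm_ne_zero_iff.2 hw0
  refine ⟨(‖w‖)⁻¹ • w, ?_, fun i => ?_⟩
  · rw [norm_smul, norm_inv, norm_norm, inv_mul_cancel₀ hw1]
  · rw [inner_smul_left]
    have := (Submodule.mem_orthogonal' _ w).1 hw (φ i) (Submodule.subset_span ⟨i, rfl⟩)
    rw [this, mul_zero]

/-- `n` points fit -/
lemma fit (hn : 1 ≤ n) {K L : Set (E n)} (hL : IsBody L) (hc : Covers L K)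
    (p : Fin n → E n) (hp : ∀ i, p i ∈ K) : ∃ x : E n, ∀ i, p i + x ∈ L := by
  classical
  obtain ⟨hLn, hLc, hLv⟩ := hL
  -- the set of the tuples that fit
  set A : Set (Fin n → E n) := Set.univ.pi fun _ => L with hA
  set Δ : Submodule ℝ (Fin n → E n) := LinearMap.range (LinearMap.pi fun _ : Fin n =>
    (LinearMap.id : E n →ₗ[ℝ] E n)) with hΔ
  have hAc : IsCompact A := isCompact_univ_pi fun _ => hLc
  have hAv : Convex ℝ A := convex_pi fun _ _ => hLv
  have hCl : IsClosed (A + (Δ : Set (Fin n → E n))) :=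
    (Submodule.closed_of_finiteDimensional Δ).add_left_of_isCompact hAc
  have hCv : Convex ℝ (A + (Δ : Set (Fin n → E n))) := hAv.add Δ.convex
  by_cases hmem : p ∈ A + (Δ : Set (Fin n → E n))
  · obtain ⟨a, ha, b, hb, hab⟩ := hmem
    obtain ⟨x, hx⟩ := hb
    refine ⟨-x, fun i => ?_⟩
    have h1 : p i = a i + x := by rw [← hab, ← hx]; simp
    rw [h1, add_neg_cancel_right]
    exact ha i (Set.mem_univ i)
  · exfalso
    obtain ⟨f, u0, hf1, hf2⟩ := geometric_hahn_banach_point_closed hCv hCl hmem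
    -- f vanishes on the diagonal
    have hconst : ∀ x : E n, (fun _ : Fin n => x) ∈ Δ := fun x => ⟨x, by ext; simp⟩
    obtain ⟨l0, hl0⟩ := hLn
    have hl0A : (fun _ : Fin n => l0) ∈ A := fun i _ => hl0
    have hf0 : ∀ x : E n, f (fun _ => x) = 0 := by
      intro x
      by_contra hne
      set c : ℝ := (u0 - 1 - f (fun _ => l0)) / f (fun _ => x) with hc'
      have h1 := hf2 _ (Set.add_mem_add hl0A (hconst (c • x)))
      have h2 : (fun _ : Fin n => c • x) = c • (fun _ : Fin n => x) := rfl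
      rw [map_add, h2, map_smul, smul_eq_mul, hc', div_mul_cancel₀ _ hne] at h1
      linarith
    -- components of f
    have hfs : ∀ q : Fin n → E n, f q = ∑ i, f (Pi.single i (q i)) := by
      intro q
      rw [← map_sum]
      congr 1
      exact (Finset.univ_sum_single q).symm
    have hφ : ∀ i : Fin n, ∃ φ : E n, ∀ x : E n, f (Pi.single i x) = inner ℝ φ x := by
      intro i
      refine ⟨(InnerProductSpace.toDual ℝ (E n)).symm
        (f.comp (ContinuousLinearMap.single ℝ (fun _ : Fin n => E n) i)), fun x => ?_⟩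
      rw [InnerProductSpace.toDual_symm_apply]
      rfl
    choose φ hφ using hφ
    have hsum : ∑ i, φ i = 0 := by
      rw [← inner_self_eq_zero (𝕜 := ℝ)]
      have h1 := hf0 (∑ i, φ i)
      rw [hfs] at h1
      simp only [hφ] at h1
      rw [← sum_inner] at h1
      exact h1
    obtain ⟨w, hw1, hw2⟩ := exists_unit_orth hn φ hsum
    obtain ⟨v, hv0, hv⟩ := hc w hw1
    have hy : ∀ i, ∃ y ∈ L, shadow w y = shadow w (p i) + v := by
      intro i
      have := hv ⟨shadow w (p i), ⟨p i, hp i, rfl⟩, rfl⟩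
      obtain ⟨y, hy, hy'⟩ := this
      exact ⟨y, hy, hy'⟩
    choose y hyL hy using hy
    have hkey : f p = f y := by
      rw [hfs p, hfs y]
      simp only [hφ]
      have h1 : ∀ i, inner ℝ (φ i) (y i) = inner ℝ (φ i) (p i) + inner ℝ (φ i) v := by
        intro i
        rw [← inner_shadow w (φ i) (y i) (hw2 i), hy i, inner_add_right,
          inner_shadow w (φ i) (p i) (hw2 i)]
      simp only [h1, Finset.sum_add_distrib]
      rw [← sum_inner Finset.univ φ v, hsum, inner_zero_left, add_zero]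
    have h2 := hf2 y ⟨y, fun i _ => hyL i, 0, Δ.zero_mem, add_zero _⟩
    rw [hkey] at hf1
    linarith

/-- `n + 1` points fit after contraction -/
lemma fit_succ (hn : 1 ≤ n) {K L : Set (E n)} (hL : IsBody L) (hc : Covers L K)
    (p : Fin (n + 1) → E n) (hp : ∀ i, p i ∈ K) :
    ∃ y : E n, ∀ i, (1 - 1 / (n : ℝ)) • p i + y ∈ L := by
  have hn0 : (0 : ℝ) < n := by exact_mod_cast hn
  have h1 : ∀ j : Fin (n + 1), ∃ x : E n, ∀ i : Fin n, p (j.succAbove i) + x ∈ L := fun j =>
    fit hn hL hc (fun i => p (j.succAbove i)) fun i => hp _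
  choose x hx using h1
  have hx' : ∀ i j : Fin (n + 1), i ≠ j → p i + x j ∈ L := by
    intro i j hij
    obtain ⟨k, rfl⟩ := Fin.exists_succAbove_eq hij
    exact hx j k
  refine ⟨(1 / ((n : ℝ) + 1)) • ((1 / (n : ℝ)) • ∑ k, p k + ∑ k, x k), fun i => ?_⟩
  have hw : ∑ _m : Fin n, (1 / (n : ℝ)) = 1 := by
    rw [Finset.sum_const, Finset.card_univ, Fintype.card_fin, nsmul_eq_mul]
    field_simp
  have hA : ∑ m : Fin n, (1 / (n : ℝ)) • (p i + x (i.succAbove m)) ∈ L :=
    hL.2.2.sum_mem (fun _ _ => by positivity) hw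
      fun m _ => hx' _ _ (Fin.succAbove_ne i m).symm
  have hB : ∑ m : Fin n, (1 / (n : ℝ)) • (p (i.succAbove m) + x i) ∈ L :=
    hL.2.2.sum_mem (fun _ _ => by positivity) hw
      fun m _ => hx' _ _ (Fin.succAbove_ne i m)
  have hLv : Convex ℝ L := hL.2.2
  have hC := hLv hA hB (by positivity : 0 ≤ (n : ℝ) / ((n : ℝ) + 1))
    (by positivity : 0 ≤ 1 / ((n : ℝ) + 1)) (by field_simp)
  have heq : (1 - 1 / (n : ℝ)) • p i +
      (1 / ((n : ℝ) + 1)) • ((1 / (n : ℝ)) • ∑ k, p k + ∑ k, x k) =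
      ((n : ℝ) / ((n : ℝ) + 1)) • ∑ m : Fin n, (1 / (n : ℝ)) • (p i + x (i.succAbove m)) +
      (1 / ((n : ℝ) + 1)) • ∑ m : Fin n, (1 / (n : ℝ)) • (p (i.succAbove m) + x i) := by
    rw [Fin.sum_univ_succAbove p i, Fin.sum_univ_succAbove x i]
    simp only [smul_add, Finset.sum_add_distrib, Finset.sum_const, Finset.card_univ,
      Fintype.card_fin, ← Finset.smul_sum]
    simp only [← Nat.cast_smul_eq_nsmul ℝ, smul_smul]
    set P := ∑ m : Fin n, p (i.succAbove m)
    set X := ∑ m : Fin n, x (i.succAbove m)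
    have e1 : (n : ℝ) / (n + 1) * (n * (1 / n)) = n / (n + 1) := by field_simp
    have e2 : (n : ℝ) / (n + 1) * (1 / n) = 1 / (n + 1) := by field_simp
    have e3 : 1 / ((n : ℝ) + 1) * (n * (1 / n)) = 1 / (n + 1) := by field_simp
    rw [e1, e2, e3]
    have e4 : (1 - 1 / (n : ℝ)) + 1 / ((n : ℝ) + 1) * (1 / n) = n / (n + 1) := by
      field_simp; ring
    rw [← e4, add_smul]
    abel
  rw [heq]
  exact hC

/-- the inclusion -/
lemma incl (hn : 1 ≤ n) {K L : Set (E n)} (hL : IsBody L) (hc : Covers L K) :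
    ∃ y : E n, ∀ p ∈ K, (1 - 1 / (n : ℝ)) • p + y ∈ L := by
  classical
  have key := Convex.helly_theorem_compact' (𝕜 := ℝ) (ι := K)
    (F := fun p : K => {y : E n | (1 - 1 / (n : ℝ)) • (p : E n) + y ∈ L}) ?_ ?_ ?_
  · obtain ⟨y, hy⟩ := key
    rw [Set.mem_iInter] at hy
    exact ⟨y, fun p hp => hy ⟨p, hp⟩⟩
  · intro p
    exact hL.2.2.translate_preimage_right ((1 - 1 / (n : ℝ)) • (p : E n))
  · intro p
    have : {y : E n | (1 - 1 / (n : ℝ)) • (p : E n) + y ∈ L} =
        (fun y => y - (1 - 1 / (n : ℝ)) • (p : E n)) '' L := by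
      ext y
      simp only [Set.mem_ofPred_eq, Set.mem_image]
      constructor
      · intro h
        exact ⟨_, h, by abel⟩
      · rintro ⟨z, hz, rfl⟩
        rw [add_sub_cancel]
        exact hz
    rw [this]
    exact hL.2.1.image (by fun_prop)
  · intro I hI
    rw [finrank_euclideanSpace_fin] at hI
    rcases I.eq_empty_or_nonempty with rfl | ⟨q0, hq0⟩
    · simp
    · obtain ⟨p, hp⟩ : ∃ p : Fin (n + 1) → K, ∀ q ∈ I, ∃ i, p i = q := by
        have hle : Fintype.card I ≤ Fintype.card (Fin (n + 1)) := by simpa using hI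
        obtain ⟨g⟩ := Function.Embedding.nonempty_of_card_le hle
        refine ⟨fun i => if h : ∃ a : I, g a = i then (h.choose : K) else q0, fun q hq => ?_⟩
        refine ⟨g ⟨q, hq⟩, ?_⟩
        have hex : ∃ a : I, g a = g ⟨q, hq⟩ := ⟨_, rfl⟩
        beta_reduce
        rw [dif_pos hex]
        have := g.injective hex.choose_spec
        rw [this]
      obtain ⟨y, hy⟩ := fit_succ hn hL hc (fun i => (p i : E n)) fun i => (p i).2
      refine ⟨y, ?_⟩
      simp only [Set.mem_iInter]
      intro q hq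
      obtain ⟨i, rfl⟩ := hp q hq
      exact hy i

end Pool.Agent.Shadow
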