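import Pool.Agent.Shadow.Erode

/-!
# The volume bound
-/

set_option autoImplicit false

open Finset MeasureTheory Filter Topology
open scoped Pointwise ENNReal

namespace Pool.Agent.Shadow

variable {n : ℕ}

lemma vol_aff (a : ℝ) (ha : 0 ≤ a) (w : E n) (L : Set (E n)) :
    volume ((fun x => a • x + w) '' L) = ENNReal.ofReal (a ^ n) * volume L := by
  have h1 : (fun x : E n => a • x + w) '' L = (fun x => x + w) '' (a • L) := by
    rw [← Set.image_smul, Set.image_image]
  rw [h1, Set.image_add_right, measure_preimage_add_right, Measure.addHaar_smul,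
    finrank_euclideanSpace_fin, abs_of_nonneg (pow_nonneg ha n)]

lemma vol_aff_real (a : ℝ) (ha : 0 ≤ a) (w : E n) (L : Set (E n)) :
    volume.real ((fun x => a • x + w) '' L) = a ^ n * volume.real L := by
  unfold Measure.real
  rw [vol_aff a ha, ENNReal.toReal_mul, ENNReal.toReal_ofReal (pow_nonneg ha n)]

lemma body_aff (a : ℝ) (w : E n) {L : Set (E n)} (hL : IsBody L) :
    IsBody ((fun x => a • x + w) '' L) := by
  refine ⟨hL.1.image _, hL.2.1.image (by fun_prop), ?_⟩
  intro x hx y hy s t hs ht hst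
  obtain ⟨p, hp, rfl⟩ := hx
  obtain ⟨q, hq, rfl⟩ := hy
  refine ⟨s • p + t • q, hL.2.2 hp hq hs ht hst, ?_⟩
  have h2 : s • w + t • w = w := by rw [← add_smul, hst, one_smul]
  calc a • (s • p + t • q) + w = a • (s • p + t • q) + (s • w + t • w) := by rw [h2]
    _ = _ := by module

lemma vol_fin {L : Set (E n)} (hL : IsBody L) : volume L ≠ ∞ := hL.2.1.measure_lt_top.ne

lemma incl' (hn : 2 ≤ n) {K L : Set (E n)} (hL : IsBody L) (hc : Covers L K) :
    ∃ t : E n, K ⊆ (fun x => ((n : ℝ) / (n - 1)) • x + t) '' L := by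
  obtain ⟨y, hy⟩ := incl (by omega) hL hc
  have hn' : (2 : ℝ) ≤ n := by exact_mod_cast hn
  have h1 : (n : ℝ) - 1 ≠ 0 := by linarith
  have h0 : (n : ℝ) ≠ 0 := by linarith
  have hc1 : ((n : ℝ) / (n - 1)) * (1 - 1 / n) = 1 := by field_simp
  refine ⟨-(((n : ℝ) / (n - 1)) • y), fun p hp => ⟨_, hy p hp, ?_⟩⟩
  change ((n : ℝ) / (n - 1)) • ((1 - 1 / (n : ℝ)) • p + y) + -(((n : ℝ) / (n - 1)) • y) = p
  rw [smul_add, smul_smul, hc1, one_smul, add_neg_cancel_right]

lemma covers_self (L : Set (E n)) : Covers L L := by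
  intro u _
  exact ⟨0, by simp, by simp⟩

lemma pow_sub_le (a b : ℝ) (hb : 0 ≤ b) (hab : b ≤ a) (m : ℕ) :
    a ^ (m + 1) - b ^ (m + 1) ≤ (m + 1) * (a - b) * a ^ m := by
  have ha : 0 ≤ a := hb.trans hab
  induction m with
  | zero => simp
  | succ m ih =>
    have h1 : b ^ (m + 1) ≤ a ^ (m + 1) := pow_le_pow_left₀ hb hab _
    have h2 : a * (a ^ (m + 1) - b ^ (m + 1)) ≤ a * ((m + 1) * (a - b) * a ^ m) :=
      mul_le_mul_of_nonneg_left ih ha
    have h3 : b ^ (m + 1) * (a - b) ≤ a ^ (m + 1) * (a - b) :=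
      mul_le_mul_of_nonneg_right h1 (by linarith)
    push_cast
    calc a ^ (m + 1 + 1) - b ^ (m + 1 + 1) =
        a * (a ^ (m + 1) - b ^ (m + 1)) + b ^ (m + 1) * (a - b) := by ring
      _ ≤ a * ((m + 1) * (a - b) * a ^ m) + a ^ (m + 1) * (a - b) := add_le_add h2 h3
      _ = _ := by ring

/-- the erosion of a dilate of `L` -/
lemma erode_self {L : Set (E n)} (hv : Convex ℝ L) {a ε : ℝ} (hε : 0 ≤ ε) (ha : ε ≤ a)
    (ha0 : 0 < a) (w : E n) :
    (fun x => (a - ε) • x + w) '' L ⊆ erode ((fun x => a • x + w) '' L) L ε := by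
  rintro _ ⟨x, hx, rfl⟩ l hl
  refine ⟨((a - ε) / a) • x + (ε / a) • l, hv hx hl (div_nonneg (by linarith) ha0.le)
    (div_nonneg hε ha0.le) (by field_simp; ring), ?_⟩
  have h1 : a * ((a - ε) / a) = a - ε := by field_simp
  have h2 : a * (ε / a) = ε := by field_simp
  change a • (((a - ε) / a) • x + (ε / a) • l) + w = (a - ε) • x + w + ε • l
  rw [smul_add, smul_smul, smul_smul, h1, h2]
  abel

/-- the key inequality -/
lemma key (hn : 2 ≤ n) {K L : Set (E n)} (hK : IsBody K) (hL : IsBody L) (hc : Covers L K)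
    {ε : ℝ} (hε : 0 < ε) {M : ℝ} (hM0 : 0 ≤ M)
    (hM : ∀ W : Set (E n), IsBody W → Covers L W → volume.real W ≤ M) :
    (1 + ε) ^ n * volume.real K ≤ (((1 + ε) * (n / (n - 1))) ^ n -
      ((1 + ε) * (n / (n - 1)) - ε) ^ n) * volume.real L + M := by
  obtain ⟨t, ht⟩ := incl' hn hL hc
  have hn' : (2 : ℝ) ≤ n := by exact_mod_cast hn
  set c : ℝ := (n : ℝ) / (n - 1) with hcdef
  have hc1 : 1 ≤ c := by
    rw [hcdef, le_div_iff₀ (by linarith)]
    linarith
  set a : ℝ := (1 + ε) * c with hadef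
  have haε : ε ≤ a := by nlinarith
  have ha0 : 0 < a := by positivity
  set A : Set (E n) := (1 + ε) • K with hA
  set B : Set (E n) := (fun x => a • x + (1 + ε) • t) '' L with hB
  have hAbody : IsBody A := by
    have := body_aff (1 + ε) (0 : E n) hK
    have h2 : (fun x : E n => (1 + ε) • x + 0) '' K = A := by
      rw [hA, ← Set.image_smul]; simp
    rwa [h2] at this
  have hBbody : IsBody B := body_aff a _ hL
  have hAB : A ⊆ B := by
    rintro _ ⟨p, hp, rfl⟩
    obtain ⟨x, hx, hxp⟩ := ht hp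
    refine ⟨x, hx, ?_⟩
    change a • x + (1 + ε) • t = (1 + ε) • p
    have hxp' : c • x + t = p := hxp
    rw [← hxp', smul_add, smul_smul]
  have hloss := loss_mono hL.1 hL.2.1 hε.le hAbody.2.1.isClosed hAbody.2.2 hBbody.2.1 hAB
  -- the eroded set
  set W : Set (E n) := erode A L ε with hW
  have hWsub : volume W ≤ volume A := measure_erode_le hL.1 ε
  have hWM : volume.real W ≤ M := by
    rcases W.eq_empty_or_nonempty with h | h
    · rw [h]; simpa using hM0
    · refine hM W ⟨h, ?_, erode_convex hAbody.2.2 ε⟩ (erode_covers hL hc hε.le)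
      obtain ⟨l, hl⟩ := hL.1
      have hcomp : IsCompact ((fun x => x + -(ε • l)) '' A) := hAbody.2.1.image (by fun_prop)
      refine hcomp.of_isClosed_subset (erode_closed hAbody.2.1.isClosed ε) ?_
      intro x hx
      exact ⟨x + ε • l, hx l hl, by simp⟩
  have hWfin : volume W ≠ ∞ := ne_top_of_le_ne_top (vol_fin hAbody) hWsub
  have hBfin : volume B ≠ ∞ := vol_fin hBbody
  have h1 : volume ((fun x => (a - ε) • x + (1 + ε) • t) '' L) + volume A ≤
      volume B + volume W :=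
    (add_le_add (measure_mono (erode_self hL.2.2 hε.le haε ha0 _)) le_rfl).trans hloss
  have h2 := ENNReal.toReal_mono (ENNReal.add_ne_top.2 ⟨hBfin, hWfin⟩) h1
  rw [ENNReal.toReal_add (vol_fin (body_aff _ _ hL)) (vol_fin hAbody),
    ENNReal.toReal_add hBfin hWfin] at h2
  have h3 : (volume A).toReal = (1 + ε) ^ n * volume.real K := by
    have h4 := vol_aff_real (1 + ε) (by linarith) (0 : E n) K
    have h5 : (fun x : E n => (1 + ε) • x + 0) '' K = A := by
      rw [hA, ← Set.image_smul]; simp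
    rwa [h5] at h4
  have h4 : (volume B).toReal = a ^ n * volume.real L := vol_aff_real a ha0.le _ L
  have h5 : (volume ((fun x => (a - ε) • x + (1 + ε) • t) '' L)).toReal =
      (a - ε) ^ n * volume.real L := vol_aff_real (a - ε) (by linarith) _ L
  rw [h3, h4, h5] at h2
  have h6 : (volume W).toReal ≤ M := hWM
  linarith [h2, h6, sub_mul (a ^ n) ((a - ε) ^ n) (volume.real L)]

/-- the volume bound for real volumes -/
lemma bound_real (hn : 2 ≤ n) {K L : Set (E n)} (hK : IsBody K) (hL : IsBody L)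
    (hc : Covers L K) : volume.real K ≤ ((n : ℝ) / (n - 1)) ^ (n - 1) * volume.real L := by
  have hn' : (2 : ℝ) ≤ n := by exact_mod_cast hn
  set c : ℝ := (n : ℝ) / (n - 1) with hcdef
  have hc1 : 1 ≤ c := by
    rw [hcdef, le_div_iff₀ (by linarith)]
    linarith
  set S : Set ℝ := {r | ∃ K : Set (E n), IsBody K ∧ Covers L K ∧ r = volume.real K} with hS
  have hSne : S.Nonempty := ⟨_, L, hL, covers_self L, rfl⟩
  have hSb : BddAbove S := by
    refine ⟨c ^ n * volume.real L, ?_⟩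
    rintro _ ⟨K', hK', hc', rfl⟩
    obtain ⟨t, ht⟩ := incl' hn hL hc'
    rw [← vol_aff_real c (by linarith) t L]
    exact ENNReal.toReal_mono (vol_fin (body_aff _ _ hL)) (measure_mono ht)
  set M : ℝ := sSup S with hM
  have hM1 : ∀ W : Set (E n), IsBody W → Covers L W → volume.real W ≤ M :=
    fun W h1 h2 => le_csSup hSb ⟨W, h1, h2, rfl⟩
  have hM0 : 0 ≤ M := le_trans measureReal_nonneg (hM1 L hL (covers_self L))
  have hV0 : 0 ≤ volume.real L := measureReal_nonneg
  obtain ⟨m, rfl⟩ : ∃ m, n = m + 1 := ⟨n - 1, by omega⟩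
  have hstep : ∀ ε : ℝ, 0 < ε → M ≤ ((1 + ε) * c) ^ m * volume.real L := by
    intro ε hε
    have h1 : M ≤ ((((1 + ε) * c) ^ (m + 1) - ((1 + ε) * c - ε) ^ (m + 1)) * volume.real L + M) /
        (1 + ε) ^ (m + 1) := by
      refine csSup_le hSne ?_
      rintro _ ⟨K', hK', hc', rfl⟩
      rw [le_div_iff₀ (by positivity), mul_comm]
      exact key hn hK' hL hc' hε hM0 hM1
    rw [le_div_iff₀ (by positivity)] at h1
    have h2 : 1 + ((m + 1 : ℕ) : ℝ) * ε ≤ (1 + ε) ^ (m + 1) :=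
      one_add_mul_le_pow (by linarith) _
    have h3 := pow_sub_le ((1 + ε) * c) ((1 + ε) * c - ε) (by nlinarith) (by linarith) m
    have h4 : (((1 + ε) * c) ^ (m + 1) - ((1 + ε) * c - ε) ^ (m + 1)) * volume.real L ≤
        ((m + 1) * ((1 + ε) * c - ((1 + ε) * c - ε)) * ((1 + ε) * c) ^ m) * volume.real L :=
      mul_le_mul_of_nonneg_right h3 hV0
    have h5 : M * (1 + ((m + 1 : ℕ) : ℝ) * ε) ≤ M * (1 + ε) ^ (m + 1) :=
      mul_le_mul_of_nonneg_left h2 hM0
    push_cast at h5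
    have h6 : ((m + 1 : ℝ) * ε) * M ≤ ((m + 1 : ℝ) * ε) * (((1 + ε) * c) ^ m * volume.real L) := by
      nlinarith
    exact le_of_mul_le_mul_left h6 (by positivity)
  have hlim : Tendsto (fun ε : ℝ => ((1 + ε) * c) ^ m * volume.real L) (𝓝[>] 0)
      (𝓝 (((1 + 0) * c) ^ m * volume.real L)) := by
    have : Continuous (fun ε : ℝ => ((1 + ε) * c) ^ m * volume.real L) := by fun_prop
    exact (this.tendsto 0).mono_left nhdsWithin_le_nhds
  have hfin : M ≤ ((1 + 0) * c) ^ m * volume.real L :=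
    ge_of_tendsto hlim (eventually_nhdsWithin_of_forall fun ε hε => hstep ε hε)
  rw [add_zero, one_mul] at hfin
  rw [Nat.add_sub_cancel]
  exact (hM1 K hK hc).trans hfin

/-- the volume bound -/
theorem bound (hn : 2 ≤ n) {K L : Set (E n)} (hK : IsBody K) (hL : IsBody L)
    (hc : Covers L K) :
    volume K ≤ ENNReal.ofReal (((n : ℝ) / (n - 1)) ^ (n - 1)) * volume L := by
  have hn' : (2 : ℝ) ≤ n := by exact_mod_cast hn
  have h1 := bound_real hn hK hL hc
  have h2 : 0 ≤ ((n : ℝ) / (n - 1)) ^ (n - 1) :=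
    pow_nonneg (div_nonneg (by linarith) (by linarith)) _
  have h3 : ENNReal.ofReal (((n : ℝ) / (n - 1)) ^ (n - 1)) * volume L =
      ENNReal.ofReal (((n : ℝ) / (n - 1)) ^ (n - 1) * volume.real L) := by
    rw [ENNReal.ofReal_mul h2, Measure.real, ENNReal.ofReal_toReal (vol_fin hL)]
  rw [h3]
  calc volume K = ENNReal.ofReal (volume.real K) := by
        rw [Measure.real, ENNReal.ofReal_toReal (vol_fin hK)]
    _ ≤ _ := ENNReal.ofReal_le_ofReal h1

lemma const_lt (hn : 2 ≤ n) : ((n : ℝ) / (n - 1)) ^ (n - 1) < Real.exp 1 := by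
  obtain ⟨m, rfl⟩ : ∃ m, n = m + 1 := ⟨n - 1, by omega⟩
  have hm : 1 ≤ m := by omega
  have hm' : (1 : ℝ) ≤ m := by exact_mod_cast hm
  have hm0 : (m : ℝ) ≠ 0 := by linarith
  rw [Nat.add_sub_cancel]
  have h1 : (((m + 1 : ℕ) : ℝ) / (((m + 1 : ℕ) : ℝ) - 1)) = 1 / (m : ℝ) + 1 := by
    push_cast
    rw [add_sub_cancel_right, add_div, div_self hm0]
    ring
  rw [h1]
  have h2 : (1 / (m : ℝ)) + 1 < Real.exp (1 / m) := Real.add_one_lt_exp (by positivity)
  calc (1 / (m : ℝ) + 1) ^ m < (Real.exp (1 / m)) ^ m :=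
        pow_lt_pow_left₀ h2 (by positivity) (by omega)
    _ = Real.exp 1 := by
        rw [← Real.exp_nat_mul]
        congr 1
        field_simp

end Pool.Agent.Shadow
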